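import Mathlib
import Pool.Agent.H336R4.PF.Defs
import Pool.Agent.H902R3.PZ.Stmts

/-!
# Tasks for MP_8e9775_nt (a primitive element violating the prime square sum asymptotic)

`F = zeta ^ k * H` with `k > 2 lam`, where `H` has poles of order `2 N + 1` at a zero `rho` of zeta and
at its conjugate.
-/

set_option autoImplicit false

open Finset Filter Topology

namespace Pool.Agent.H180R3.PO

open Pool.Agent.H336R4.PF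

/-! ### Part 1: elements with a simple pole and degree in `[1, 2)` -/

/-- TASK STIR: Stirling on vertical lines, with error term `O(1/y)`. -/
def TaskSTIR : Prop := ∀ α : ℂ, ∃ C T : ℝ, 1 ≤ T ∧ ∀ y : ℝ, T ≤ y →
  ‖Complex.Gamma (α + y * Complex.I) / ((Real.sqrt (2 * Real.pi) : ℂ) *
    Complex.exp ((y * Complex.I + α - 1 / 2) * ((Real.log y : ℂ) + Real.pi / 2 * Complex.I) - y * Complex.I)) - 1‖ ≤ C / y

/-- polynomial growth in vertical strips -/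
def PolyGrowth (G : ℂ → ℂ) : Prop := ∀ K : ℝ, ∃ C A : ℝ, 0 ≤ C ∧ 0 ≤ A ∧ ∀ s : ℂ, |s.re| ≤ K →
  ‖G s‖ ≤ C * (1 + |s.im|) ^ A

/-- TASK PG: polynomial growth (Phragmen-Lindelof, from `StripGrowth`, Stirling on the left, series on the right). -/
def TaskPG : Prop := TaskSTIR → TaskFEX → StripGrowth → ∀ (a : ℕ → ℂ), Ram a → ∀ (m : ℕ) (G : ℂ → ℂ), Cont a m G →
  ∀ (Q : ℝ) (k : ℕ) (lam : Fin k → ℝ) (μ : Fin k → ℂ) (ω : ℂ), 0 < Q → FE m G Q k lam μ ω → PolyGrowth G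

/-- exponential series -/
noncomputable def fz (a : ℕ → ℂ) (z : ℂ) : ℂ := ∑' n : ℕ, (if n = 0 then 0 else a n) * Complex.exp (-(n * z))

/-- TASK MB: Mellin-Barnes formula, shifted to `Re s = -η`. -/
def TaskMB : Prop := ∀ (a : ℕ → ℂ), Ram a → ∀ (G : ℂ → ℂ), Cont a 1 G → PolyGrowth G → ∀ η : ℝ, 0 < η → η < 1 →
  ∀ z : ℂ, 0 < z.re →
  MeasureTheory.Integrable (fun t : ℝ => G (-η + t * Complex.I) / (-η + t * Complex.I - 1) *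
    Complex.Gamma (-η + t * Complex.I) * Complex.exp (-(-η + t * Complex.I) * Complex.log z)) ∧
  fz a z = G 1 / z - G 0 + (1 / (2 * Real.pi) : ℂ) *
    ∫ t : ℝ, G (-η + t * Complex.I) / (-η + t * Complex.I - 1) *
      Complex.Gamma (-η + t * Complex.I) * Complex.exp (-(-η + t * Complex.I) * Complex.log z)

/-- asymptotics of `F Γ` on the line `Re s = -η` -/
def Asym (a : ℕ → ℂ) (G : ℂ → ℂ) (d η : ℝ) (K : ℂ) (c A C T : ℝ) : Prop :=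
  K ≠ 0 ∧ 1 ≤ T ∧ ∀ t : ℝ, T ≤ t →
    ‖G (-η + t * Complex.I) / (-η + t * Complex.I - 1) * Complex.Gamma (-η + t * Complex.I) *
        (Real.exp (Real.pi * t / 2) : ℂ) -
      K * ((t ^ ((d - 1) * (1 / 2 + η)) : ℝ) : ℂ) *
        Complex.exp (Complex.I * ((-(d - 1) * (t * Real.log t) + c * t - A * Real.log t : ℝ) : ℂ)) *
        (starRingEnd ℂ) (LSeries a (1 + η + t * Complex.I))‖ ≤ C * t ^ ((d - 1) * (1 / 2 + η) - 1)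

/-- TASK ST: asymptotics of `F Γ` on the line `Re s = -η`. -/
def TaskST : Prop := TaskSTIR → TaskFEX → ∀ (a : ℕ → ℂ), Ram a → ∀ (G : ℂ → ℂ), Cont a 1 G →
  ∀ (Q : ℝ) (k : ℕ) (lam : Fin k → ℝ) (μ : Fin k → ℂ) (ω : ℂ), 0 < Q → FE 1 G Q k lam μ ω → ∀ η : ℝ, 0 < η → η < 1 →
  ∃ (K : ℂ) (c A C T : ℝ), Asym a G (2 * ∑ j, lam j) η K c A C T

/-- the oscillatory integral -/
noncomputable def JJ (κ e A T δ b : ℝ) : ℂ := ∫ t in Set.Ioi T, ((t ^ e * Real.exp (-(δ * t)) : ℝ) : ℂ) *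
  Complex.exp (Complex.I * ((b * t - κ * (t * Real.log t) - A * Real.log t : ℝ) : ℂ))

/-- the series of oscillatory integrals; `z = δ + i y`, `arg z = π / 2 - δ'`, `δ' = arctan (δ / y)` -/
noncomputable def SJ (a : ℕ → ℂ) (d η c A T y δ : ℝ) : ℂ := ∑' n : ℕ, (starRingEnd ℂ) (a n) *
  (((n : ℝ) ^ (-1 - η) : ℝ) : ℂ) * JJ (d - 1) ((d - 1) * (1 / 2 + η)) A T (Real.arctan (δ / y))
    (c + Real.log n - Real.log ‖((δ : ℂ) + y * Complex.I)‖)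

/-- TASK LIM: reduction of `δ f(δ + i y)` to the series of oscillatory integrals. -/
def TaskLIM : Prop := ∀ (a : ℕ → ℂ), Ram a → ∀ (G : ℂ → ℂ), Cont a 1 G → PolyGrowth G → TaskMB →
  ∀ (d η : ℝ) (K : ℂ) (c A C T : ℝ), 1 ≤ d → 0 < η → η < 1 → (d - 1) * (1 / 2 + η) < 1 → Asym a G d η K c A C T →
  ∀ y : ℝ, 0 < y → Tendsto (fun δ : ℝ => (δ : ℂ) * fz a (δ + y * Complex.I) -
    (δ : ℂ) * (K / (2 * Real.pi)) * ((‖((δ : ℂ) + y * Complex.I)‖ ^ η : ℝ) : ℂ) *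
      Complex.exp (Complex.I * ((η * (Real.pi / 2 - Real.arctan (δ / y)) : ℝ) : ℂ)) * SJ a d η c A T y δ)
    (𝓝[>] 0) (𝓝 0)

/-- TASK VC: second derivative test. -/
def TaskVC : Prop := ∀ (κ e A T : ℝ), 0 < κ → 0 ≤ e → 1 ≤ T → ∃ C : ℝ, 0 ≤ C ∧ ∀ δ : ℝ, 0 < δ → δ ≤ 1 → ∀ b : ℝ,
  ‖JJ κ e A T δ b‖ ≤ C * δ ^ (-(e + 1 / 2))

/-- TASK T1: no pole for degree in `(1, 2)`. -/
def TaskT1 : Prop := TaskVC → TaskLIM → TaskMB → ∀ (a : ℕ → ℂ), Ram a → ∀ (G : ℂ → ℂ), Cont a 1 G → PolyGrowth G →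
  ∀ (d : ℝ), 1 < d → d < 2 → (∀ η : ℝ, 0 < η → η < 1 → ∃ (K : ℂ) (c A C T : ℝ), Asym a G d η K c A C T) → G 1 = 0

/-- periodic coefficients -/
def Per (a : ℕ → ℂ) : Prop := ∃ q : ℕ, 0 < q ∧ a q ≠ 0 ∧ ∀ m : ℕ, 1 ≤ m → a (m + q) = a m

/-- TASK T2: degree one with a pole: periodic coefficients. -/
def TaskT2 : Prop := TaskLIM → TaskMB → ∀ (a : ℕ → ℂ), a 1 = 1 → Ram a → ∀ (G : ℂ → ℂ), Cont a 1 G → PolyGrowth G →
  (∀ η : ℝ, 0 < η → η < 1 → ∃ (K : ℂ) (c A C T : ℝ), Asym a G 1 η K c A C T) → G 1 ≠ 0 → Per a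

/-- TASK AR: periodic coefficients with an Euler product. -/
def TaskAR : Prop := ∀ (a : ℕ → ℂ), a 1 = 1 → Ram a → Eul a → Per a →
  ∃ E : ℂ → ℂ, (∀ s : ℂ, 0 < s.re → DifferentiableAt ℂ E s) ∧ ∀ s : ℂ, 1 < s.re → LSeries a s = riemannZeta s * E s

/-- conclusion of part 1 -/
def PoleLow : Prop := ∀ (a : ℕ → ℂ) (d : ℝ), Cls a d → 1 ≤ d → d < 2 → ∀ G : ℂ → ℂ, Cont a 1 G → G 1 ≠ 0 →
  ∃ E : ℂ → ℂ, (∀ s : ℂ, 0 < s.re → DifferentiableAt ℂ E s) ∧ ∀ s : ℂ, 1 < s.re → LSeries a s = riemannZeta s * E s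

/-! ### Part 2: the final argument -/

/-- upper half of the asymptotic -/
def Q1up (a : ℕ → ℂ) : Prop := ∃ C : ℝ, ∀ N : ℕ, 3 ≤ N →
  ∑ p ∈ (Finset.Iic N).filter Nat.Prime, ‖a p‖ ^ 2 / (p : ℝ) ≤ Real.log (Real.log (N : ℝ)) + C

/-- TASK CS: the pole at `1` is at most simple. -/
def TaskCS : Prop := ∀ (a : ℕ → ℂ), a 1 = 1 → Ram a → Eul a → Q1up a → ∀ (m : ℕ) (G : ℂ → ℂ), Cont a m G → G 1 ≠ 0 → m ≤ 1

/-- the special element -/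
def EltP : Prop := ∃ (a : ℕ → ℂ) (d : ℝ) (k : ℕ) (G : ℂ → ℂ) (ρ : ℂ), Cls a d ∧ Cont a k G ∧ G 1 ≠ 0 ∧ d < 2 * k ∧
  0 < ρ.re ∧ ρ ≠ 1 ∧ Tendsto (fun s => ‖G s / riemannZeta s‖) (𝓝[≠] ρ) atTop

/-- TASK FIN: factor the special element into primitives; some primitive factor violates the upper half. -/
def TaskFIN : Prop := DegGap → DegAdd → PoleLow → TaskCS → EltP → ∃ a : ℕ → ℂ, Prim a ∧ ¬ Q1up a

/-! ### Part 3: the element `H` -/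

open Pool.Agent.H469R10.HO Pool.Agent.H902R3.PZ

/-- inhomogeneous term with powers of the logarithm, antisymmetric -/
noncomputable def RN (m N : ℕ) (C L x : ℝ) : ℝ := C * x ^ m * Real.log x ^ (2 * N) * Real.sin (L * Real.log x)

/-- the extra source -/
noncomputable def rN (m N : ℕ) (C L x : ℝ) : ℝ := th x * RN m N C L x

/-- TASK HN: size of the extra source (as TaskN'). -/
def TaskHN : Prop := ∀ (m N : ℕ) (L : ℝ), 2 ≤ m → ∃ K : ℝ, 0 < K ∧ ∀ c : ℝ, 0 < c → c ≤ 1 → ∀ (C : ℝ) (J : ℕ),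
  ∑ j ∈ range J, WW c j * (PP (rN m N C L) j) ^ 2 ≤ K * C ^ 2 / c

/-- TASK HO (as TaskO'). -/
def TaskHO : Prop := ∀ (c lam : ℝ) (m N : ℕ) (B : ℕ → Finset ℕ) (b : ℕ → ℝ) (C L : ℝ), 0 < c → 1 ≤ lam → 2 ≤ m →
  (∀ j, ∀ p ∈ B j, 1 ≤ j ∧ p.Prime ∧ |uu c lam p - xx j| ≤ 1 / 2) → (∀ j, 1 ≤ j → (B j).Nonempty) →
  Summable (fun n => |alp c lam B b n|) →
  (∀ j, b j = (ss c m j + PP (rN m N C L) j) + ∑' n, alp c lam B b n * TT c lam m n j) →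
  ∀ α : ℕ → ℝ, (∀ n, α n = if n = 0 then b 0 - 1 else if Squarefree n then ∏ p ∈ n.primeFactors, bet c lam B b p else 0) →
  ∀ x : ℝ, 0 < x → ∑' n, α n * Real.cos (uu c lam n * x) =
    x ^ (2 * m) * ∑' n, α n * Real.cos (uu c lam n / x) + RN m N C L x

/-- odd exponential polynomial -/
noncomputable def PhiN (N : ℕ) (P R : ℕ → ℝ) (L u : ℝ) : ℝ :=
  ∑ i ∈ range (N + 1), P i * u ^ (2 * i) * Real.sin (L * u) + ∑ i ∈ range N, R i * u ^ (2 * i + 1) * Real.cos (L * u)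

/-- its Laplace transform, even in `w` -/
noncomputable def TN (N : ℕ) (P R : ℕ → ℝ) (L : ℝ) (w : ℂ) : ℂ :=
  ∑ i ∈ range (N + 1), (P i : ℂ) * (2 * i).factorial * (1 / (2 * Complex.I)) *
      (1 / (w - L * Complex.I) ^ (2 * i + 1) - 1 / (w + L * Complex.I) ^ (2 * i + 1)) +
  ∑ i ∈ range N, (R i : ℂ) * (2 * i + 1).factorial * (1 / 2) *
      (1 / (w - L * Complex.I) ^ (2 * i + 2) + 1 / (w + L * Complex.I) ^ (2 * i + 2))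

/-- TASK HG: from the boundary relation to the theta relation (as TaskG1, with the leading coefficient). -/
def TaskHG : Prop := ∀ (m : ℕ), Odd m → ∀ (N : ℕ) (L : ℝ), ∃ P R : ℕ → ℝ, P N = AA m L ∧
  ∀ (α u : ℕ → ℝ), Summable (fun n => |α n|) → u 0 = 0 → (∀ n, 1 ≤ n → 0 < u n) → ∀ C : ℝ,
  (∀ x : ℝ, 0 < x → ∑' n, α n * Real.cos (u n * x) = x ^ (2 * m) * ∑' n, α n * Real.cos (u n / x) + RN m N C L x) →
  ∀ t : ℝ, 0 < t → ∑' n, α n * u n ^ (2 * m + 1) * Real.exp (-(u n / t)) =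
    t ^ (2 * m + 2) * ∑' n, α n * u n ^ (2 * m + 1) * Real.exp (-(u n * t)) -
      C * t ^ (m + 1) * PhiN N P R L (Real.log t)

/-- TASK HF: Mellin transform (as TaskF'). -/
def TaskHF : Prop := ∀ (c lam : ℝ) (m : ℕ), 0 < c → 1 ≤ lam → 1 ≤ m → ∀ (N : ℕ) (P R : ℕ → ℝ) (L C : ℝ), 0 < L →
  ∀ (A : ℕ → ℝ), A 0 = 0 → Summable (fun n => |A n| * (uu c lam n) ^ (-(2 * (m : ℝ) + 1))) →
  (∀ t : ℝ, 0 < t → ∑' n, A n * Real.exp (-(uu c lam n / t)) =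
    t ^ (2 * m + 2) * ∑' n, A n * Real.exp (-(uu c lam n * t)) - C * t ^ (m + 1) * PhiN N P R L (Real.log t)) →
  ∃ Λ : ℂ → ℂ, Differentiable ℂ Λ ∧ (∀ z : ℂ, Λ (2 * m + 2 - z) = Λ z) ∧
    (∀ z : ℂ, Λ ((starRingEnd ℂ) z) = (starRingEnd ℂ) (Λ z)) ∧
    (∀ z : ℂ, 2 * (m : ℝ) + 2 < z.re → HasSum (fun n : ℕ => if n = 0 then 0 else (A n : ℂ) * ((uu c lam n : ℝ) : ℂ) ^ (-z))
      ((Λ z - (C : ℂ) * TN N P R L (z - (m + 1))) * (Complex.Gamma z)⁻¹)) ∧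
    ∃ C : ℝ, ∀ z : ℂ, ‖Λ z‖ ≤ Real.exp (C * (1 + ‖z‖) ^ 2)

/-- TASK HZ: `(s - 1) ζ(s)` is entire of finite order, with the exact order of the zero at `1/2 + iγ` and its conjugate. -/
def TaskHZ : Prop := ∀ γ : ℝ, 0 < γ → riemannZeta (1 / 2 + γ * Complex.I) = 0 →
  ∃ (v : ℕ) (Z Y : ℂ → ℂ), 1 ≤ v ∧ Differentiable ℂ Z ∧ Differentiable ℂ Y ∧ (∀ s : ℂ, s ≠ 1 → Z s = (s - 1) * riemannZeta s) ∧
    Z 1 = 1 ∧ (∀ s : ℂ, Z s = ((s - 1 / 2) ^ 2 + (γ : ℂ) ^ 2) ^ v * Y s) ∧ Y (1 / 2 + γ * Complex.I) ≠ 0 ∧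
    (∃ C : ℝ, ∀ s : ℂ, ‖Z s‖ ≤ Real.exp (C * (1 + ‖s‖) ^ 2)) ∧ (∃ C : ℝ, ∀ s : ℂ, ‖Y s‖ ≤ Real.exp (C * (1 + ‖s‖) ^ 2))

/-- TASK HC: core with a polar term of order `2 N + 1`; `m` does not depend on `N`. -/
def TaskHC : Prop := ∃ m : ℕ, Odd m ∧ 2 ≤ m ∧ ∀ (γ : ℝ) (N : ℕ), 0 < γ → ∃ (c C : ℝ) (β α : ℕ → ℝ), 0 < c ∧ 0 < C ∧
  (∀ p : ℕ, p.Prime → |β p| ≤ (p : ℝ) ^ (-(1 / 2 + m / lamOf m))) ∧
  (∀ n : ℕ, 1 ≤ n → α n = if Squarefree n then ∏ p ∈ n.primeFactors, β p else 0) ∧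
  Summable (fun n => |α n|) ∧
  (∀ x : ℝ, 0 < x → ∑' n, α n * Real.cos (uu c (lamOf m) n * x) =
      x ^ (2 * m) * ∑' n, α n * Real.cos (uu c (lamOf m) n / x) + RN m N C (lamOf m * γ) x)

/-- TASK HW (wrapper): `F = ζ ^ k * H`, `k = 2 M + 1`, `M = 2 m + 2`, `N = M v`, degree `k + 2 lamOf m < 2 k`;
at `ρ = 1 / 2 + i γ` the quotient `F / ζ` has a pole of order one. -/
def TaskHW : Prop := TaskE → TaskG2 → TaskHC → TaskHG → TaskHF → TaskHZ → EltP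

end Pool.Agent.H180R3.PO
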