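import Mathlib
import Pool.Agent.H180R3.PO.Stmts

set_option autoImplicit false

open Finset Filter Topology MeasureTheory

namespace Pool.Agent.H180R3.PO

open Pool.Agent.H336R4.PF

/-! TASK LIM -/

namespace Lim

/-- `F Γ` on the line -/
noncomputable def PF (G : ℂ → ℂ) (η t : ℝ) : ℂ := G (-η + t * Complex.I) / (-η + t * Complex.I - 1) *
    Complex.Gamma (-η + t * Complex.I)

lemma norm_z {δ y : ℝ} : ‖(δ : ℂ) + y * Complex.I‖ = Real.sqrt (δ ^ 2 + y ^ 2) := by
  rw [Complex.norm_def, Complex.normSq_apply]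
  simp
  congr 1
  ring

lemma arg_z {δ y : ℝ} (hδ : 0 < δ) (hy : 0 < y) :
    Complex.arg ((δ : ℂ) + y * Complex.I) = Real.pi / 2 - Real.arctan (δ / y) := by
  set x := δ / y with hx
  have hx0 : 0 < x := div_pos hδ hy
  have h1 : (δ : ℂ) + y * Complex.I = ((y * Real.sqrt (1 + x ^ 2) : ℝ) : ℂ) *
      (Complex.cos ((Real.pi / 2 - Real.arctan x : ℝ) : ℂ) + Complex.sin ((Real.pi / 2 - Real.arctan x : ℝ) : ℂ) * Complex.I) := by
    rw [← Complex.ofReal_cos, ← Complex.ofReal_sin, Real.cos_pi_div_two_sub, Real.sin_pi_div_two_sub,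
      Real.sin_arctan, Real.cos_arctan]
    have hs : Real.sqrt (1 + x ^ 2) ≠ 0 := by positivity
    have e1 : y * Real.sqrt (1 + x ^ 2) * (x / Real.sqrt (1 + x ^ 2)) = δ := by
      rw [hx] at *
      field_simp
    have e2 : y * Real.sqrt (1 + x ^ 2) * (1 / Real.sqrt (1 + x ^ 2)) = y := by
      field_simp
    rw [mul_add, ← mul_assoc, ← Complex.ofReal_mul, ← Complex.ofReal_mul, e1, e2]
  rw [h1]
  have hat1 := Real.arctan_lt_pi_div_two x
  have hat2 : 0 < Real.arctan x := by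
    have := Real.arctan_strictMono hx0
    rwa [Real.arctan_zero] at this
  exact Complex.arg_mul_cos_add_sin_mul_I (by positivity) ⟨by linarith [Real.pi_pos], by linarith [Real.pi_pos]⟩

lemma log_z {δ y : ℝ} (hδ : 0 < δ) (hy : 0 < y) :
    Complex.log ((δ : ℂ) + y * Complex.I) = ((Real.log ‖(δ : ℂ) + y * Complex.I‖ : ℝ) : ℂ) +
      ((Real.pi / 2 - Real.arctan (δ / y) : ℝ) : ℂ) * Complex.I := by
  rw [← arg_z hδ hy]
  rfl

/-- the kernel on the line -/
lemma kernel {δ y : ℝ} (hδ : 0 < δ) (hy : 0 < y) (η t : ℝ) :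
    Complex.exp (-(-η + t * Complex.I) * Complex.log ((δ : ℂ) + y * Complex.I)) =
      (Real.exp (Real.pi * t / 2) : ℂ) * (((‖(δ : ℂ) + y * Complex.I‖ ^ η : ℝ) : ℂ) *
        Complex.exp (Complex.I * ((η * (Real.pi / 2 - Real.arctan (δ / y)) : ℝ) : ℂ)) *
        ((Real.exp (-(Real.arctan (δ / y) * t)) : ℝ) : ℂ) *
        Complex.exp (Complex.I * ((-(t * Real.log ‖(δ : ℂ) + y * Complex.I‖) : ℝ) : ℂ))) := by
  rw [log_z hδ hy]
  have hz : 0 < ‖(δ : ℂ) + y * Complex.I‖ := by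
    rw [norm_z]; positivity
  rw [Real.rpow_def_of_pos hz]
  push_cast
  rw [← Complex.exp_add, ← Complex.exp_add, ← Complex.exp_add, ← Complex.exp_add]
  congr 1
  ring_nf
  rw [Complex.I_sq]
  ring

lemma arctan_lower {δ y : ℝ} (hδ : 0 < δ) (hy : 0 < y) (h : δ ≤ y) : δ / (2 * y) ≤ Real.arctan (δ / y) := by
  -- arctan x ≥ x / 2 on [0,1]
  set x := δ / y with hx
  have hx0 : 0 < x := div_pos hδ hy
  have hx1 : x ≤ 1 := by rw [hx, div_le_one hy]; exact h
  have e : δ / (2 * y) = x / 2 := by rw [hx]; field_simp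
  rw [e]
  -- tan (x/2) ≤ x
  have h1 : Real.tan (x / 2) ≤ x := by
    have hc : 1 / 2 ≤ Real.cos (x / 2) := by
      have := Real.one_sub_sq_div_two_le_cos (x := x / 2)
      nlinarith
    have hs : Real.sin (x / 2) ≤ x / 2 := Real.sin_le (by positivity)
    rw [Real.tan_eq_sin_div_cos, div_le_iff₀ (by linarith)]
    nlinarith
  have h2 : Real.arctan (Real.tan (x / 2)) ≤ Real.arctan x := Real.arctan_strictMono.monotone h1
  rwa [Real.arctan_tan (by linarith [Real.pi_pos]) (by nlinarith [Real.pi_gt_three])] at h2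

lemma arctan_pos {δ y : ℝ} (hδ : 0 < δ) (hy : 0 < y) : 0 < Real.arctan (δ / y) := by
  have := Real.arctan_strictMono (div_pos hδ hy)
  rwa [Real.arctan_zero] at this

lemma gam_int {e δ : ℝ} (he : 0 < e) (hδ : 0 < δ) :
    IntegrableOn (fun t : ℝ => t ^ (e - 1) * Real.exp (-(δ * t))) (Set.Ioi 0) := by
  have h := Real.GammaIntegral_convergent he
  have h2 : IntegrableOn (fun t : ℝ => Real.exp (-(δ * t)) * (δ * t) ^ (e - 1)) (Set.Ioi 0) := by
    have := (integrableOn_Ioi_comp_mul_left_iff (fun x : ℝ => Real.exp (-x) * x ^ (e - 1)) 0 hδ).2 (by simpa using h)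
    simpa using this
  have h3 : IntegrableOn (fun t : ℝ => (δ ^ (e - 1))⁻¹ * (Real.exp (-(δ * t)) * (δ * t) ^ (e - 1))) (Set.Ioi 0) :=
    h2.const_mul (δ ^ (e - 1))⁻¹
  refine IntegrableOn.congr_fun h3 ?_ measurableSet_Ioi
  intro t ht
  have ht0 : (0:ℝ) < t := ht
  simp only
  rw [Real.mul_rpow hδ.le ht0.le]
  have : δ ^ (e - 1) ≠ 0 := (Real.rpow_pos_of_pos hδ _).ne'
  field_simp

lemma gam_val {e δ : ℝ} (he : 0 < e) (hδ : 0 < δ) :
    ∫ t in Set.Ioi (0:ℝ), t ^ (e - 1) * Real.exp (-(δ * t)) = (1 / δ) ^ e * Real.Gamma e :=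
  Real.integral_rpow_mul_exp_neg_mul_Ioi he hδ

/-- the integrand of `JJ` -/
noncomputable def jj (κ e A δ b t : ℝ) : ℂ := ((t ^ e * Real.exp (-(δ * t)) : ℝ) : ℂ) *
  Complex.exp (Complex.I * ((b * t - κ * (t * Real.log t) - A * Real.log t : ℝ) : ℂ))

lemma norm_jj {κ e A δ b t : ℝ} (ht : 0 < t) : ‖jj κ e A δ b t‖ = t ^ e * Real.exp (-(δ * t)) := by
  unfold jj
  rw [norm_mul, Complex.norm_real, mul_comm Complex.I, Complex.norm_exp_ofReal_mul_I, mul_one, Real.norm_eq_abs,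
    abs_of_pos (mul_pos (Real.rpow_pos_of_pos ht _) (Real.exp_pos _))]

lemma jj_cont {κ e A δ b : ℝ} : ContinuousOn (jj κ e A δ b) (Set.Ioi 0) := by
  intro t ht
  have ht0 : (0:ℝ) < t := ht
  have h1 : ContinuousAt (fun t : ℝ => t ^ e) t := Real.continuousAt_rpow_const _ _ (Or.inl ht0.ne')
  have h2 : ContinuousAt Real.log t := Real.continuousAt_log ht0.ne'
  apply ContinuousAt.continuousWithinAt
  unfold jj
  apply ContinuousAt.mul
  · apply Complex.continuous_ofReal.continuousAt.comp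
    exact h1.mul (by fun_prop)
  · apply Complex.continuous_exp.continuousAt.comp
    apply continuousAt_const.mul
    apply Complex.continuous_ofReal.continuousAt.comp
    exact ((continuousAt_const.mul continuousAt_id).sub (continuousAt_const.mul (continuousAt_id.mul h2))).sub
      (continuousAt_const.mul h2)

lemma bnd_int {e δ T : ℝ} (he : 0 ≤ e) (hδ : 0 < δ) (hT : 1 ≤ T) :
    IntegrableOn (fun t : ℝ => t ^ e * Real.exp (-(δ * t))) (Set.Ioi T) := by
  have h := gam_int (e := e + 1) (by linarith) hδ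
  have h2 : IntegrableOn (fun t : ℝ => t ^ (e + 1 - 1) * Real.exp (-(δ * t))) (Set.Ioi T) :=
    IntegrableOn.mono_set h (Set.Ioi_subset_Ioi (by linarith))
  simpa using h2

lemma jj_int {κ e A δ b T : ℝ} (he : 0 ≤ e) (hδ : 0 < δ) (hT : 1 ≤ T) :
    IntegrableOn (jj κ e A δ b) (Set.Ioi T) := by
  refine Integrable.mono' (bnd_int he hδ hT) ?_ ?_
  · exact (jj_cont.mono (Set.Ioi_subset_Ioi (by linarith))).aestronglyMeasurable measurableSet_Ioi
  · refine (ae_restrict_iff' measurableSet_Ioi).2 (Eventually.of_forall fun t ht => ?_)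
    have ht0 : T < t := ht
    rw [norm_jj (by linarith)]

/-- coefficients are absolutely summable -/
lemma ram_summable {a : ℕ → ℂ} (ha : Ram a) {η : ℝ} (hη : 0 < η) :
    Summable fun n : ℕ => ‖a n‖ * (n : ℝ) ^ (-1 - η) := by
  obtain ⟨C, hC⟩ := ha (η / 2) (by positivity)
  have h1 : Summable fun n : ℕ => |C| * (n : ℝ) ^ (-(1 + η / 2)) := by
    apply Summable.mul_left
    exact Real.summable_nat_rpow.2 (by linarith)
  refine Summable.of_nonneg_of_le (fun n => by positivity) (fun n => ?_) h1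
  rcases Nat.eq_zero_or_pos n with rfl | hn
  · rw [Nat.cast_zero, Real.zero_rpow (by linarith), mul_zero]
    positivity
  · have hn0 : (0:ℝ) < n := by exact_mod_cast hn
    have h2 := hC n hn
    have h3 : C * (n:ℝ) ^ (η / 2) ≤ |C| * (n:ℝ) ^ (η / 2) :=
      mul_le_mul_of_nonneg_right (le_abs_self _) (Real.rpow_nonneg hn0.le _)
    have e1 : (n:ℝ) ^ (η / 2) * (n:ℝ) ^ (-1 - η) = (n:ℝ) ^ (-(1 + η / 2)) := by
      rw [← Real.rpow_add hn0]; congr 1; ring
    calc ‖a n‖ * (n:ℝ) ^ (-1 - η) ≤ |C| * (n:ℝ) ^ (η / 2) * (n:ℝ) ^ (-1 - η) :=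
          mul_le_mul_of_nonneg_right (h2.trans h3) (Real.rpow_nonneg hn0.le _)
      _ = _ := by rw [mul_assoc, e1]

lemma term_eq {a : ℕ → ℂ} {η t : ℝ} (hη : 0 < η) (n : ℕ) :
    (starRingEnd ℂ) (LSeries.term a (1 + η + t * Complex.I) n) =
      (starRingEnd ℂ) (a n) * (((n : ℝ) ^ (-1 - η) : ℝ) : ℂ) *
        Complex.exp (Complex.I * ((Real.log n * t : ℝ) : ℂ)) := by
  rcases Nat.eq_zero_or_pos n with rfl | hn
  · rw [LSeries.term_zero, map_zero, Nat.cast_zero, Real.zero_rpow (by linarith)]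
    simp
  · have hn0 : (0:ℝ) < n := by exact_mod_cast hn
    have hnc : (n : ℂ) ≠ 0 := by exact_mod_cast hn.ne'
    rw [LSeries.term_of_ne_zero hn.ne', map_div₀, mul_assoc, div_eq_mul_inv]
    congr 1
    rw [Complex.cpow_def_of_ne_zero hnc, ← Complex.natCast_log, Real.rpow_def_of_pos hn0, ← Complex.exp_conj,
      ← Complex.exp_neg]
    push_cast
    rw [← Complex.exp_add]
    congr 1
    have hl : (starRingEnd ℂ) (Complex.log (n : ℂ)) = Complex.log (n : ℂ) := by
      rw [← Complex.natCast_log, Complex.conj_ofReal]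
    simp only [map_mul, map_add, map_one, Complex.conj_ofReal, Complex.conj_I, hl]
    ring

lemma lser_eq {a : ℕ → ℂ} {η t : ℝ} (hη : 0 < η) :
    (starRingEnd ℂ) (LSeries a (1 + η + t * Complex.I)) = ∑' n : ℕ,
      (starRingEnd ℂ) (a n) * (((n : ℝ) ^ (-1 - η) : ℝ) : ℂ) * Complex.exp (Complex.I * ((Real.log n * t : ℝ) : ℂ)) := by
  unfold LSeries
  rw [Complex.conj_tsum]
  exact tsum_congr fun n => term_eq hη n

/-- exchange of sum and integral -/
lemma exchange {a : ℕ → ℂ} (ha : Ram a) {d η c A T : ℝ} (hd : 1 ≤ d) (hη : 0 < η) (hT : 1 ≤ T)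
    {y δ : ℝ} (hδ : 0 < δ) (hy : 0 < y) :
    SJ a d η c A T y δ = ∫ t in Set.Ioi T, jj (d - 1) ((d - 1) * (1 / 2 + η)) A (Real.arctan (δ / y))
      (c - Real.log ‖((δ : ℂ) + y * Complex.I)‖) t * (starRingEnd ℂ) (LSeries a (1 + η + t * Complex.I)) := by
  set δ' := Real.arctan (δ / y) with hδ'
  have hδ'0 : 0 < δ' := arctan_pos hδ hy
  set e := (d - 1) * (1 / 2 + η) with he
  have he0 : 0 ≤ e := mul_nonneg (by linarith) (by linarith)
  set b := c - Real.log ‖((δ : ℂ) + y * Complex.I)‖ with hb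
  set w : ℕ → ℂ := fun n => (starRingEnd ℂ) (a n) * (((n : ℝ) ^ (-1 - η) : ℝ) : ℂ) with hw
  have hwn : ∀ n, ‖w n‖ = ‖a n‖ * (n:ℝ) ^ (-1 - η) := by
    intro n
    rw [hw]
    simp only [norm_mul, RCLike.norm_conj, Complex.norm_real, Real.norm_eq_abs]
    rw [abs_of_nonneg (Real.rpow_nonneg (Nat.cast_nonneg n) _)]
  have hws : Summable fun n => ‖w n‖ := by
    refine (ram_summable ha hη).congr fun n => (hwn n).symm
  have hterm : ∀ n : ℕ, ∀ t : ℝ, w n * jj (d - 1) e A δ' (c + Real.log n - Real.log ‖((δ : ℂ) + y * Complex.I)‖) t =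
      jj (d - 1) e A δ' b t * (w n * Complex.exp (Complex.I * ((Real.log n * t : ℝ) : ℂ))) := by
    intro n t
    unfold jj
    have e1 : Complex.exp (Complex.I * (((c + Real.log n - Real.log ‖((δ : ℂ) + y * Complex.I)‖) * t -
        (d - 1) * (t * Real.log t) - A * Real.log t : ℝ) : ℂ)) =
        Complex.exp (Complex.I * ((b * t - (d - 1) * (t * Real.log t) - A * Real.log t : ℝ) : ℂ)) *
        Complex.exp (Complex.I * ((Real.log n * t : ℝ) : ℂ)) := by
      rw [← Complex.exp_add]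
      congr 1
      rw [hb]
      push_cast
      ring
    rw [e1]
    ring
  unfold SJ
  have h1 : ∀ n : ℕ, (starRingEnd ℂ) (a n) * (((n : ℝ) ^ (-1 - η) : ℝ) : ℂ) *
      JJ (d - 1) e A T δ' (c + Real.log n - Real.log ‖((δ : ℂ) + y * Complex.I)‖) =
      ∫ t in Set.Ioi T, w n * jj (d - 1) e A δ' (c + Real.log n - Real.log ‖((δ : ℂ) + y * Complex.I)‖) t := by
    intro n
    rw [integral_const_mul]
    rfl
  rw [tsum_congr h1]
  rw [integral_tsum_of_summable_integral_norm (F := fun (n : ℕ) (t : ℝ) =>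
    w n * jj (d - 1) e A δ' (c + Real.log n - Real.log ‖((δ : ℂ) + y * Complex.I)‖) t)]
  · refine setIntegral_congr_fun measurableSet_Ioi fun t ht => ?_
    rw [lser_eq hη, ← tsum_mul_left]
    exact tsum_congr fun n => hterm n t
  · intro n
    exact (jj_int he0 hδ'0 hT).const_mul _
  · have h2 : ∀ n : ℕ, (∫ t in Set.Ioi T, ‖w n * jj (d - 1) e A δ'
        (c + Real.log n - Real.log ‖((δ : ℂ) + y * Complex.I)‖) t‖) =
        ‖w n‖ * ∫ t in Set.Ioi T, t ^ e * Real.exp (-(δ' * t)) := by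
      intro n
      rw [← integral_const_mul]
      refine setIntegral_congr_fun measurableSet_Ioi fun t ht => ?_
      have ht0 : T < t := ht
      rw [norm_mul, norm_jj (by linarith)]
    simp_rw [h2]
    exact hws.mul_right _

lemma lser_div {a : ℕ → ℂ} {G : ℂ → ℂ} (hG : Cont a 1 G) {η : ℝ} (hη : 0 < η) (t : ℝ) :
    LSeries a (1 + η + t * Complex.I) = G (1 + η + t * Complex.I) / (η + t * Complex.I) := by
  have h := hG.2.2 (1 + η + t * Complex.I) (by simp; linarith)
  have h1 : (η : ℂ) + t * Complex.I ≠ 0 := by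
    intro h0
    have := congrArg Complex.re h0
    simp at this
    linarith
  rw [h, pow_one]
  have e : (1 : ℂ) + η + t * Complex.I - 1 = η + t * Complex.I := by ring
  rw [e]
  field_simp

lemma lser_cont {a : ℕ → ℂ} {G : ℂ → ℂ} (hG : Cont a 1 G) {η : ℝ} (hη : 0 < η) :
    Continuous fun t : ℝ => LSeries a (1 + η + t * Complex.I) := by
  have h : (fun t : ℝ => LSeries a (1 + η + t * Complex.I)) =
      fun t : ℝ => G (1 + η + t * Complex.I) / (η + t * Complex.I) := by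
    funext t; exact lser_div hG hη t
  rw [h]
  have hGc := hG.1.continuous
  refine Continuous.div (hGc.comp (by fun_prop)) (by fun_prop) (fun t h0 => ?_)
  have := congrArg Complex.re h0
  simp at this
  linarith

lemma lser_bound {a : ℕ → ℂ} (ha : Ram a) {η : ℝ} (hη : 0 < η) (t : ℝ) :
    ‖(starRingEnd ℂ) (LSeries a (1 + η + t * Complex.I))‖ ≤ ∑' n : ℕ, ‖a n‖ * (n : ℝ) ^ (-1 - η) := by
  rw [lser_eq hη]
  refine tsum_of_norm_bounded (ram_summable ha hη).hasSum fun n => ?_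
  rw [norm_mul, norm_mul, RCLike.norm_conj, Complex.norm_real, mul_comm Complex.I, Complex.norm_exp_ofReal_mul_I,
    mul_one, Real.norm_eq_abs, abs_of_nonneg (Real.rpow_nonneg (Nat.cast_nonneg n) _)]

end Lim

open Lim

theorem taskLIM : TaskLIM := by
  intro a ha G hG hPG hMB d η K c A C T hd hη hη1 he1 hAs y hy
  obtain ⟨hK, hT, hAs⟩ := hAs
  set e := (d - 1) * (1 / 2 + η) with he
  have he0 : 0 ≤ e := mul_nonneg (by linarith) (by linarith)
  have hPi : Integrable (PF G η) := by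
    have h1 := (hMB a ha G hG hPG η hη hη1 1 (by norm_num)).1
    refine h1.congr (Eventually.of_forall fun t => ?_)
    simp [Complex.log_one, PF]
  set e₁ : ℝ := (1 + e) / 2 with he₁
  have he₁0 : 0 < e₁ := by linarith
  have he₁1 : e₁ < 1 := by linarith
  set I₀ : ℝ := ∫ t : ℝ, ‖PF G η t‖ with hI₀
  have hI₀0 : 0 ≤ I₀ := integral_nonneg fun t => norm_nonneg _
  set B : ℝ := ∑' n : ℕ, ‖a n‖ * (n : ℝ) ^ (-1 - η) with hB
  -- the bound
  set β : ℝ → ℝ := fun δ => δ * (‖G 1‖ / y + ‖G 0‖) + δ / (2 * Real.pi) * ((1 + y) ^ η * Real.exp (Real.pi * T / 2) * I₀) +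
    (1 + y) ^ η * (|C| * Real.Gamma e₁ * (2 * y) ^ e₁) / (2 * Real.pi) * δ ^ (1 - e₁) with hβ
  have hβ0 : Tendsto β (𝓝[>] 0) (𝓝 0) := by
    have h1 : Tendsto (fun δ : ℝ => δ) (𝓝[>] 0) (𝓝 0) := nhdsWithin_le_nhds
    have h2 : Tendsto (fun δ : ℝ => δ ^ (1 - e₁)) (𝓝[>] 0) (𝓝 0) := by
      have h3 : ContinuousAt (fun δ : ℝ => δ ^ (1 - e₁)) 0 := Real.continuousAt_rpow_const _ _ (Or.inr (by linarith))
      have h4 := h3.tendsto
      rw [Real.zero_rpow (by linarith)] at h4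
      exact h4.mono_left nhdsWithin_le_nhds
    have h5 := ((h1.mul_const (‖G 1‖ / y + ‖G 0‖)).add
      ((h1.div_const (2 * Real.pi)).mul_const ((1 + y) ^ η * Real.exp (Real.pi * T / 2) * I₀))).add
      (h2.const_mul ((1 + y) ^ η * (|C| * Real.Gamma e₁ * (2 * y) ^ e₁) / (2 * Real.pi)))
    simpa using h5
  refine squeeze_zero_norm' ?_ hβ0
  have hev : ∀ᶠ δ : ℝ in 𝓝[>] 0, 0 < δ ∧ δ < min 1 y := by
    filter_upwards [Ioo_mem_nhdsGT (show (0:ℝ) < min 1 y by positivity)] with δ hδ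
    exact hδ
  filter_upwards [hev] with δ hδ
  obtain ⟨hδ0, hδ1⟩ := hδ
  have hδ1' : δ < 1 := lt_of_lt_of_le hδ1 (min_le_left _ _)
  have hδy : δ ≤ y := (lt_of_lt_of_le hδ1 (min_le_right _ _)).le
  set z : ℂ := (δ : ℂ) + y * Complex.I with hz
  set δ' := Real.arctan (δ / y) with hδ'
  have hδ'0 : 0 < δ' := arctan_pos hδ0 hy
  have hδ'l : δ / (2 * y) ≤ δ' := arctan_lower hδ0 hy hδy
  have hzre : z.re = δ := by simp [hz]
  have hzim : z.im = y := by simp [hz]
  have hzy : y ≤ ‖z‖ := by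
    have := Complex.abs_im_le_norm z
    rw [hzim, abs_of_pos hy] at this
    exact this
  have hz0 : 0 < ‖z‖ := by linarith
  have hzu : ‖z‖ ≤ 1 + y := by
    have h1 : ‖z‖ ≤ ‖(δ : ℂ)‖ + ‖(y : ℂ) * Complex.I‖ := norm_add_le _ _
    rw [norm_mul, Complex.norm_I, mul_one, Complex.norm_real, Complex.norm_real, Real.norm_of_nonneg hδ0.le,
      Real.norm_of_nonneg hy.le] at h1
    linarith
  set N : ℝ := ‖z‖ ^ η with hN
  have hN0 : 0 < N := Real.rpow_pos_of_pos hz0 _
  have hN1 : N ≤ (1 + y) ^ η := Real.rpow_le_rpow hz0.le hzu hη.le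
  set U : ℂ := Complex.exp (Complex.I * ((η * (Real.pi / 2 - δ') : ℝ) : ℂ)) with hU
  have hUn : ‖U‖ = 1 := by
    rw [hU, mul_comm, Complex.norm_exp_ofReal_mul_I]
  obtain ⟨hint, hfz⟩ := hMB a ha G hG hPG η hη hη1 z (by rw [hzre]; exact hδ0)
  -- the kernel
  set k : ℝ → ℂ := fun t => Complex.exp (-(-η + t * Complex.I) * Complex.log z) with hk
  have hkk : ∀ t : ℝ, k t = (Real.exp (Real.pi * t / 2) : ℂ) * ((N : ℂ) * U *
        ((Real.exp (-(δ' * t)) : ℝ) : ℂ) *
        Complex.exp (Complex.I * ((-(t * Real.log ‖z‖) : ℝ) : ℂ))) := fun t => kernel hδ0 hy η t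
  have hkn : ∀ t : ℝ, ‖k t‖ = Real.exp (Real.pi * t / 2) * (N * Real.exp (-(δ' * t))) := by
    intro t
    rw [hkk, norm_mul, norm_mul, norm_mul, norm_mul, hUn, mul_comm Complex.I, Complex.norm_exp_ofReal_mul_I,
      Complex.norm_real, Complex.norm_real, Complex.norm_real, Real.norm_of_nonneg (Real.exp_pos _).le,
      Real.norm_of_nonneg (Real.exp_pos _).le, Real.norm_of_nonneg hN0.le]
    ring
  have hδ'2 : δ' < Real.pi / 2 := Real.arctan_lt_pi_div_two _
  have hint' : Integrable (fun t : ℝ => PF G η t * k t) := hint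
  have hfz' : fz a z = G 1 / z - G 0 + (1 / (2 * Real.pi) : ℂ) * ∫ t : ℝ, PF G η t * k t := hfz
  have hsplit : ∫ t : ℝ, PF G η t * k t = (∫ t in Set.Iic T, PF G η t * k t) + ∫ t in Set.Ioi T, PF G η t * k t := by
    rw [← integral_add_compl measurableSet_Iic hint', Set.compl_Iic]
  -- left part
  have hleft : ‖∫ t in Set.Iic T, PF G η t * k t‖ ≤ (1 + y) ^ η * Real.exp (Real.pi * T / 2) * I₀ := by
    have h1 : ∀ t ∈ Set.Iic T, ‖PF G η t * k t‖ ≤ (1 + y) ^ η * Real.exp (Real.pi * T / 2) * ‖PF G η t‖ := by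
      intro t ht
      have ht' : t ≤ T := ht
      rw [norm_mul, hkn]
      have h2 : Real.exp (Real.pi * t / 2) * Real.exp (-(δ' * t)) ≤ Real.exp (Real.pi * T / 2) := by
        rw [← Real.exp_add]
        apply Real.exp_le_exp.2
        rcases le_total t 0 with h0 | h0
        · have : (Real.pi / 2 - δ') * t ≤ 0 := mul_nonpos_of_nonneg_of_nonpos (by linarith) h0
          have h3 : 0 ≤ Real.pi * T / 2 := by have := Real.pi_pos; positivity
          nlinarith
        · have h3 : 0 ≤ δ' * t := by positivity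
          have h4 : Real.pi * t ≤ Real.pi * T := mul_le_mul_of_nonneg_left ht' Real.pi_pos.le
          linarith
      calc ‖PF G η t‖ * (Real.exp (Real.pi * t / 2) * (N * Real.exp (-(δ' * t))))
          = N * (Real.exp (Real.pi * t / 2) * Real.exp (-(δ' * t))) * ‖PF G η t‖ := by ring
        _ ≤ (1 + y) ^ η * Real.exp (Real.pi * T / 2) * ‖PF G η t‖ := by gcongr
    have h2 : IntegrableOn (fun t => (1 + y) ^ η * Real.exp (Real.pi * T / 2) * ‖PF G η t‖) (Set.Iic T) :=
      (hPi.norm.const_mul _).integrableOn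
    refine (norm_integral_le_of_norm_le h2 ((ae_restrict_iff' measurableSet_Iic).2 (Eventually.of_forall h1))).trans ?_
    rw [integral_const_mul]
    refine mul_le_mul_of_nonneg_left ?_ (by positivity)
    exact setIntegral_le_integral hPi.norm (Eventually.of_forall fun t => norm_nonneg _)
  -- right part
  have hJi : IntegrableOn (fun t => jj (d - 1) e A δ' (c - Real.log ‖z‖) t *
      (starRingEnd ℂ) (LSeries a (1 + η + t * Complex.I))) (Set.Ioi T) := by
    refine Integrable.mono' ((bnd_int he0 hδ'0 hT).mul_const B) ?_ ?_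
    · refine AEStronglyMeasurable.mul ?_ ?_
      · exact (jj_cont.mono (Set.Ioi_subset_Ioi (by linarith))).aestronglyMeasurable measurableSet_Ioi
      · exact (Complex.continuous_conj.comp (lser_cont hG hη)).aestronglyMeasurable
    · refine (ae_restrict_iff' measurableSet_Ioi).2 (Eventually.of_forall fun t ht => ?_)
      have ht0 : T < t := ht
      rw [norm_mul, norm_jj (by linarith)]
      refine mul_le_mul_of_nonneg_left (lser_bound ha hη t) ?_
      have : 0 < t := by linarith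
      positivity
  have hex := exchange (a := a) ha (d := d) (η := η) (c := c) (A := A) (T := T) hd hη hT hδ0 hy
  have hright : ‖(∫ t in Set.Ioi T, PF G η t * k t) - (N : ℂ) * U * K * SJ a d η c A T y δ‖ ≤
      (1 + y) ^ η * (|C| * (Real.Gamma e₁ * (1 / δ') ^ e₁)) := by
    rw [hex, ← integral_const_mul, ← integral_sub hint'.integrableOn (hJi.const_mul _)]
    have h1 : ∀ t ∈ Set.Ioi T, ‖PF G η t * k t - (N : ℂ) * U * K * (jj (d - 1) e A δ' (c - Real.log ‖z‖) t *
        (starRingEnd ℂ) (LSeries a (1 + η + t * Complex.I)))‖ ≤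
        (1 + y) ^ η * (|C| * (t ^ (e₁ - 1) * Real.exp (-(δ' * t)))) := by
      intro t ht
      have ht0 : T < t := ht
      have ht1 : 1 ≤ t := by linarith
      have htp : 0 < t := by linarith
      have h2 : PF G η t * k t - (N : ℂ) * U * K * (jj (d - 1) e A δ' (c - Real.log ‖z‖) t *
        (starRingEnd ℂ) (LSeries a (1 + η + t * Complex.I))) =
        ((N : ℂ) * U * ((Real.exp (-(δ' * t)) : ℝ) : ℂ) * Complex.exp (Complex.I * ((-(t * Real.log ‖z‖) : ℝ) : ℂ))) *
        (G (-η + t * Complex.I) / (-η + t * Complex.I - 1) * Complex.Gamma (-η + t * Complex.I) *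
        (Real.exp (Real.pi * t / 2) : ℂ) -
      K * ((t ^ e : ℝ) : ℂ) *
        Complex.exp (Complex.I * ((-(d - 1) * (t * Real.log t) + c * t - A * Real.log t : ℝ) : ℂ)) *
        (starRingEnd ℂ) (LSeries a (1 + η + t * Complex.I))) := by
        rw [hkk]
        unfold jj PF
        have e1 : Complex.exp (Complex.I * (((c - Real.log ‖z‖) * t - (d - 1) * (t * Real.log t) - A * Real.log t : ℝ) : ℂ)) =
            Complex.exp (Complex.I * ((-(t * Real.log ‖z‖) : ℝ) : ℂ)) *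
            Complex.exp (Complex.I * ((-(d - 1) * (t * Real.log t) + c * t - A * Real.log t : ℝ) : ℂ)) := by
          rw [← Complex.exp_add]
          congr 1
          push_cast
          ring
        rw [e1]
        push_cast
        ring
      rw [h2, norm_mul, norm_mul, norm_mul, norm_mul, hUn, mul_comm Complex.I ((-(t * Real.log ‖z‖) : ℝ) : ℂ),
        Complex.norm_exp_ofReal_mul_I,
        Complex.norm_real, Complex.norm_real, Real.norm_of_nonneg (Real.exp_pos _).le, Real.norm_of_nonneg hN0.le]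
      have h3 := hAs t ht0.le
      have h4 : C * t ^ (e - 1) ≤ |C| * t ^ (e₁ - 1) := by
        have h5 : t ^ (e - 1) ≤ t ^ (e₁ - 1) := Real.rpow_le_rpow_of_exponent_le ht1 (by linarith)
        have h6 : 0 ≤ t ^ (e - 1) := Real.rpow_nonneg htp.le _
        calc C * t ^ (e - 1) ≤ |C| * t ^ (e - 1) := mul_le_mul_of_nonneg_right (le_abs_self _) h6
          _ ≤ _ := mul_le_mul_of_nonneg_left h5 (abs_nonneg _)
      calc N * 1 * Real.exp (-(δ' * t)) * 1 * _ ≤ N * 1 * Real.exp (-(δ' * t)) * 1 * (|C| * t ^ (e₁ - 1)) := by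
            refine mul_le_mul_of_nonneg_left (h3.trans h4) ?_
            positivity
        _ = N * (|C| * (t ^ (e₁ - 1) * Real.exp (-(δ' * t)))) := by ring
        _ ≤ _ := by
            refine mul_le_mul_of_nonneg_right hN1 ?_
            have : 0 ≤ t ^ (e₁ - 1) := Real.rpow_nonneg htp.le _
            positivity
    have h2 : IntegrableOn (fun t => (1 + y) ^ η * (|C| * (t ^ (e₁ - 1) * Real.exp (-(δ' * t))))) (Set.Ioi T) := by
      have := gam_int he₁0 hδ'0
      exact ((IntegrableOn.mono_set this (Set.Ioi_subset_Ioi (by linarith))).const_mul _).const_mul _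
    refine (norm_integral_le_of_norm_le h2 ((ae_restrict_iff' measurableSet_Ioi).2 (Eventually.of_forall h1))).trans ?_
    rw [integral_const_mul, integral_const_mul]
    refine mul_le_mul_of_nonneg_left (mul_le_mul_of_nonneg_left ?_ (abs_nonneg _)) (by positivity)
    have h3 : ∫ t in Set.Ioi T, t ^ (e₁ - 1) * Real.exp (-(δ' * t)) ≤ ∫ t in Set.Ioi (0:ℝ), t ^ (e₁ - 1) * Real.exp (-(δ' * t)) := by
      refine setIntegral_mono_set (gam_int he₁0 hδ'0) ?_ ?_
      · refine (ae_restrict_iff' measurableSet_Ioi).2 (Eventually.of_forall fun t ht => ?_)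
        have ht0 : (0:ℝ) < t := ht
        exact mul_nonneg (Real.rpow_nonneg ht0.le _) (Real.exp_pos _).le
      · exact Eventually.of_forall (Set.Ioi_subset_Ioi (by linarith : (0:ℝ) ≤ T))
    rw [gam_val he₁0 hδ'0] at h3
    linarith
  -- assembly
  have hfin : (δ : ℂ) * fz a z - (δ : ℂ) * (K / (2 * Real.pi)) * (N : ℂ) * U * SJ a d η c A T y δ =
      (δ : ℂ) * (G 1 / z - G 0) + (δ : ℂ) * (1 / (2 * Real.pi) : ℂ) * (∫ t in Set.Iic T, PF G η t * k t) +
      (δ : ℂ) * (1 / (2 * Real.pi) : ℂ) * ((∫ t in Set.Ioi T, PF G η t * k t) - (N : ℂ) * U * K * SJ a d η c A T y δ) := by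
    rw [hfz', hsplit]
    ring
  rw [hfin]
  have hpi : ‖(1 / (2 * Real.pi) : ℂ)‖ = 1 / (2 * Real.pi) := by
    have : (1 / (2 * Real.pi) : ℂ) = ((1 / (2 * Real.pi) : ℝ) : ℂ) := by push_cast; ring
    rw [this, Complex.norm_real, Real.norm_of_nonneg (by have := Real.pi_pos; positivity)]
  refine (norm_add₃_le).trans ?_
  have b1 : ‖(δ : ℂ) * (G 1 / z - G 0)‖ ≤ δ * (‖G 1‖ / y + ‖G 0‖) := by
    rw [norm_mul, Complex.norm_real, Real.norm_of_nonneg hδ0.le]
    refine mul_le_mul_of_nonneg_left ((norm_sub_le _ _).trans ?_) hδ0.le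
    rw [norm_div]
    gcongr
  have b2 : ‖(δ : ℂ) * (1 / (2 * Real.pi) : ℂ) * (∫ t in Set.Iic T, PF G η t * k t)‖ ≤
      δ / (2 * Real.pi) * ((1 + y) ^ η * Real.exp (Real.pi * T / 2) * I₀) := by
    rw [norm_mul, norm_mul, Complex.norm_real, Real.norm_of_nonneg hδ0.le, hpi]
    have : δ * (1 / (2 * Real.pi)) = δ / (2 * Real.pi) := by ring
    rw [this]
    exact mul_le_mul_of_nonneg_left hleft (by have := Real.pi_pos; positivity)
  have b3 : ‖(δ : ℂ) * (1 / (2 * Real.pi) : ℂ) * ((∫ t in Set.Ioi T, PF G η t * k t) - (N : ℂ) * U * K * SJ a d η c A T y δ)‖ ≤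
      (1 + y) ^ η * (|C| * Real.Gamma e₁ * (2 * y) ^ e₁) / (2 * Real.pi) * δ ^ (1 - e₁) := by
    rw [norm_mul, norm_mul, Complex.norm_real, Real.norm_of_nonneg hδ0.le, hpi]
    have hpip := Real.pi_pos
    have hG0 : 0 < Real.Gamma e₁ := Real.Gamma_pos_of_pos he₁0
    have h1 : (1 / δ') ^ e₁ ≤ (2 * y) ^ e₁ * δ ^ (-e₁) := by
      have h2 : 1 / δ' ≤ 2 * y / δ := by
        rw [div_le_div_iff₀ hδ'0 hδ0]
        rw [div_le_iff₀ (by positivity)] at hδ'l
        linarith
      calc (1 / δ') ^ e₁ ≤ (2 * y / δ) ^ e₁ := Real.rpow_le_rpow (by positivity) h2 he₁0.le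
        _ = _ := by rw [Real.div_rpow (by positivity) hδ0.le, Real.rpow_neg hδ0.le]; rfl
    have h3 : δ * δ ^ (-e₁) = δ ^ (1 - e₁) := by
      nth_rewrite 1 [← Real.rpow_one δ]
      rw [← Real.rpow_add hδ0]; congr 1
    calc δ * (1 / (2 * Real.pi)) * _ ≤ δ * (1 / (2 * Real.pi)) * ((1 + y) ^ η * (|C| * (Real.Gamma e₁ * (1 / δ') ^ e₁))) :=
          mul_le_mul_of_nonneg_left hright (by positivity)
      _ ≤ δ * (1 / (2 * Real.pi)) * ((1 + y) ^ η * (|C| * (Real.Gamma e₁ * ((2 * y) ^ e₁ * δ ^ (-e₁))))) := by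
          gcongr
      _ = (1 + y) ^ η * (|C| * Real.Gamma e₁ * (2 * y) ^ e₁) / (2 * Real.pi) * (δ * δ ^ (-e₁)) := by ring
      _ = _ := by rw [h3]
  simp only [hβ]
  linarith

end Pool.Agent.H180R3.PO
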