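import Mathlib
import Pool.Agent.H180R3.PO.LIM
import Pool.Agent.H5R3.TaskVCT1

set_option autoImplicit false

open Finset Filter Topology MeasureTheory

namespace Pool.Agent.H180R3.PO

open Pool.Agent.H336R4.PF Lim

/-! TASK T2 -/

namespace T2

/-- oscillating exponential -/
noncomputable def FF (A δ b t : ℝ) : ℂ := Complex.exp (-(δ : ℂ) * t + Complex.I * (b * t) - Complex.I * (A * Real.log t))

lemma norm_FF (A δ b t : ℝ) : ‖FF A δ b t‖ = Real.exp (-(δ * t)) := by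
  unfold FF
  rw [Complex.norm_exp]
  congr 1
  simp

lemma jj_eq {A δ b t : ℝ} : jj (1 - 1) ((1 - 1) * (1 / 2 + (1 / 2 : ℝ))) A δ b t = FF A δ b t := by
  unfold jj FF
  rw [sub_self, zero_mul, Real.rpow_zero, one_mul, Complex.ofReal_exp, ← Complex.exp_add]
  congr 1
  push_cast
  ring

lemma FF_deriv {A δ b t : ℝ} (ht : 0 < t) :
    HasDerivAt (FF A δ b) ((-(δ : ℂ) + Complex.I * b) * FF A δ b t - Complex.I * A * (FF A δ b t * ((t⁻¹ : ℝ) : ℂ))) t := by
  have h1 : HasDerivAt (fun t : ℝ => (t : ℂ)) 1 t := Complex.ofRealCLM.hasDerivAt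
  have h2 : HasDerivAt (fun t : ℝ => ((Real.log t : ℝ) : ℂ)) ((t⁻¹ : ℝ) : ℂ) t :=
    (Real.hasDerivAt_log ht.ne').ofReal_comp
  have h3 : HasDerivAt (fun t : ℝ => -(δ : ℂ) * t + Complex.I * (b * t) - Complex.I * (A * Real.log t))
      (-(δ : ℂ) * 1 + Complex.I * (b * 1) - Complex.I * (A * ((t⁻¹ : ℝ) : ℂ))) t :=
    ((h1.const_mul _).add ((h1.const_mul _).const_mul _)).sub ((h2.const_mul _).const_mul _)
  have h4 := h3.cexp
  refine HasDerivAt.congr_deriv (f := FF A δ b) h4 ?_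
  unfold FF
  ring

lemma FF_cont {A δ b : ℝ} : ContinuousOn (FF A δ b) (Set.Ioi 0) := fun _ ht =>
  (FF_deriv ht).continuousAt.continuousWithinAt

lemma FF_int {A δ b T : ℝ} (hδ : 0 < δ) (hT : 1 ≤ T) : IntegrableOn (FF A δ b) (Set.Ioi T) := by
  refine Integrable.mono' (bnd_int (le_refl 0) hδ hT) ?_ ?_
  · exact (FF_cont.mono (Set.Ioi_subset_Ioi (by linarith))).aestronglyMeasurable measurableSet_Ioi
  · refine Eventually.of_forall fun t => ?_
    rw [norm_FF, Real.rpow_zero, one_mul]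

lemma half_int {δ T : ℝ} (hδ : 0 < δ) (hT : 1 ≤ T) :
    IntegrableOn (fun t : ℝ => t ^ ((1 / 2 : ℝ) - 1) * Real.exp (-(δ * t))) (Set.Ioi T) :=
  IntegrableOn.mono_set (gam_int (by norm_num) hδ) (Set.Ioi_subset_Ioi (by linarith))

lemma half_val {δ T : ℝ} (hδ : 0 < δ) (hT : 1 ≤ T) :
    ∫ t in Set.Ioi T, t ^ ((1 / 2 : ℝ) - 1) * Real.exp (-(δ * t)) ≤ (1 / δ) ^ (1 / 2 : ℝ) * Real.Gamma (1 / 2) := by
  rw [← gam_val (by norm_num) hδ]
  refine setIntegral_mono_set (gam_int (by norm_num) hδ) ?_ ?_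
  · refine (ae_restrict_iff' measurableSet_Ioi).2 (Eventually.of_forall fun t ht => ?_)
    have ht0 : (0:ℝ) < t := ht
    exact mul_nonneg (Real.rpow_nonneg ht0.le _) (Real.exp_pos _).le
  · exact Eventually.of_forall (Set.Ioi_subset_Ioi (by linarith : (0:ℝ) ≤ T))

lemma FFt_bound {A δ b t : ℝ} (ht : 1 ≤ t) : ‖FF A δ b t * ((t⁻¹ : ℝ) : ℂ)‖ ≤ t ^ ((1 / 2 : ℝ) - 1) * Real.exp (-(δ * t)) := by
  have ht0 : 0 < t := by linarith
  rw [norm_mul, norm_FF, Complex.norm_real, Real.norm_of_nonneg (by positivity), mul_comm]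
  refine mul_le_mul_of_nonneg_right ?_ (Real.exp_pos _).le
  rw [← Real.rpow_neg_one]
  exact Real.rpow_le_rpow_of_exponent_le ht (by norm_num)

lemma FFt_int {A δ b T : ℝ} (hδ : 0 < δ) (hT : 1 ≤ T) :
    IntegrableOn (fun t => FF A δ b t * ((t⁻¹ : ℝ) : ℂ)) (Set.Ioi T) := by
  refine Integrable.mono' (half_int hδ hT) ?_ ?_
  · refine ContinuousOn.aestronglyMeasurable ?_ measurableSet_Ioi
    intro t ht
    have ht0 : (0:ℝ) < t := by have : T < t := ht; linarith
    have h1 : ContinuousAt (FF A δ b) t := (FF_deriv ht0).continuousAt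
    have h2 : ContinuousAt (fun t : ℝ => ((t⁻¹ : ℝ) : ℂ)) t :=
      Complex.continuous_ofReal.continuousAt.comp (continuousAt_inv₀ ht0.ne')
    exact (h1.mul h2).continuousWithinAt
  · refine (ae_restrict_iff' measurableSet_Ioi).2 (Eventually.of_forall fun t ht => ?_)
    have ht0 : T < t := ht
    exact FFt_bound (by linarith)

lemma parts {A δ b T : ℝ} (hδ : 0 < δ) (hT : 1 ≤ T) :
    (-(δ : ℂ) + Complex.I * b) * (∫ t in Set.Ioi T, FF A δ b t) =
      -FF A δ b T + Complex.I * A * ∫ t in Set.Ioi T, FF A δ b t * ((t⁻¹ : ℝ) : ℂ) := by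
  have hT0 : 0 < T := by linarith
  have h := integral_Ioi_of_hasDerivAt_of_tendsto (f := FF A δ b) (a := T) (m := 0)
    (f' := fun t => (-(δ : ℂ) + Complex.I * b) * FF A δ b t - Complex.I * A * (FF A δ b t * ((t⁻¹ : ℝ) : ℂ)))
    ((FF_deriv hT0).continuousAt.continuousWithinAt)
    (fun t ht => FF_deriv (by have : T < t := ht; linarith))
    (((FF_int hδ hT).const_mul _).sub ((FFt_int hδ hT).const_mul _))
    (by
      rw [tendsto_zero_iff_norm_tendsto_zero]
      simp_rw [norm_FF]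
      have h1 : Tendsto (fun t : ℝ => δ * t) atTop atTop := Tendsto.const_mul_atTop hδ tendsto_id
      exact Real.tendsto_exp_neg_atTop_nhds_zero.comp h1)
  rw [integral_sub ((FF_int hδ hT).const_mul _) ((FFt_int hδ hT).const_mul _), integral_const_mul,
    integral_const_mul] at h
  linear_combination h

lemma J_bound {A δ b T : ℝ} (hδ : 0 < δ) (hT : 1 ≤ T) (hb : b ≠ 0) :
    ‖(δ : ℂ) * ∫ t in Set.Ioi T, FF A δ b t‖ ≤ (δ + |A| * (δ ^ (1 / 2 : ℝ) * Real.Gamma (1 / 2))) / |b| := by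
  have h := parts (A := A) (b := b) hδ hT
  have h1 : |b| ≤ ‖(-(δ : ℂ) + Complex.I * b)‖ := by
    have := Complex.abs_im_le_norm (-(δ : ℂ) + Complex.I * b)
    simpa using this
  have hb0 : 0 < |b| := abs_pos.2 hb
  have h2 : ‖∫ t in Set.Ioi T, FF A δ b t * ((t⁻¹ : ℝ) : ℂ)‖ ≤ (1 / δ) ^ (1 / 2 : ℝ) * Real.Gamma (1 / 2) := by
    refine (norm_integral_le_of_norm_le (half_int hδ hT) ?_).trans (half_val hδ hT)
    refine (ae_restrict_iff' measurableSet_Ioi).2 (Eventually.of_forall fun t ht => ?_)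
    have ht0 : T < t := ht
    exact FFt_bound (by linarith)
  have h3 : ‖(-(δ : ℂ) + Complex.I * b) * (∫ t in Set.Ioi T, FF A δ b t)‖ ≤ 1 + |A| * ((1 / δ) ^ (1 / 2 : ℝ) * Real.Gamma (1 / 2)) := by
    rw [h]
    refine (norm_add_le _ _).trans ?_
    rw [norm_neg, norm_FF, norm_mul, norm_mul, Complex.norm_I, one_mul, Complex.norm_real, Real.norm_eq_abs]
    have : Real.exp (-(δ * T)) ≤ 1 := Real.exp_le_one_iff.2 (by nlinarith)
    gcongr
  rw [norm_mul] at h3
  rw [norm_mul, Complex.norm_real, Real.norm_of_nonneg hδ.le, le_div_iff₀ hb0]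
  have h4 : |b| * ‖∫ t in Set.Ioi T, FF A δ b t‖ ≤ 1 + |A| * ((1 / δ) ^ (1 / 2 : ℝ) * Real.Gamma (1 / 2)) :=
    (mul_le_mul_of_nonneg_right h1 (norm_nonneg _)).trans h3
  have h5 : δ * (1 / δ) ^ (1 / 2 : ℝ) = δ ^ (1 / 2 : ℝ) := by
    rw [one_div, Real.inv_rpow hδ.le, ← Real.rpow_neg hδ.le]
    nth_rewrite 1 [← Real.rpow_one δ]
    rw [← Real.rpow_add hδ]
    norm_num
  calc δ * ‖∫ t in Set.Ioi T, FF A δ b t‖ * |b| = δ * (|b| * ‖∫ t in Set.Ioi T, FF A δ b t‖) := by ring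
    _ ≤ δ * (1 + |A| * ((1 / δ) ^ (1 / 2 : ℝ) * Real.Gamma (1 / 2))) := mul_le_mul_of_nonneg_left h4 hδ.le
    _ = δ + |A| * ((δ * (1 / δ) ^ (1 / 2 : ℝ)) * Real.Gamma (1 / 2)) := by ring
    _ = _ := by rw [h5]

lemma J_triv {A δ b T : ℝ} (hδ : 0 < δ) (hT : 1 ≤ T) : ‖(δ : ℂ) * ∫ t in Set.Ioi T, FF A δ b t‖ ≤ 1 := by
  rw [norm_mul, Complex.norm_real, Real.norm_of_nonneg hδ.le]
  have h1 : ‖∫ t in Set.Ioi T, FF A δ b t‖ ≤ ∫ t in Set.Ioi T, Real.exp (-(δ * t)) := by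
    refine norm_integral_le_of_norm_le ?_ (Eventually.of_forall fun t => (norm_FF _ _ _ _).le)
    have := bnd_int (le_refl 0) hδ hT
    have h' : IntegrableOn (fun t : ℝ => Real.exp (-(δ * t))) (Set.Ioi T) := by simpa using this
    exact h'
  have h2 : ∫ t in Set.Ioi T, Real.exp (-(δ * t)) ≤ 1 / δ := by
    have h3 := integral_exp_mul_Ioi (a := -δ) (by linarith) T
    have h4 : (fun t : ℝ => Real.exp (-(δ * t))) = fun t : ℝ => Real.exp (-δ * t) := by funext t; ring_nf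
    rw [h4, h3]
    have : Real.exp (-δ * T) ≤ 1 := Real.exp_le_one_iff.2 (by nlinarith)
    rw [neg_div_neg_eq]
    gcongr
  calc δ * _ ≤ δ * (1 / δ) := mul_le_mul_of_nonneg_left (h1.trans h2) hδ.le
    _ = 1 := by field_simp

/-- small frequency -/
lemma J_small {A δ b T : ℝ} (hδ : 0 < δ) (hT : 1 ≤ T) :
    ‖(δ : ℂ) * (∫ t in Set.Ioi T, FF A δ b t) - (δ : ℂ) * ∫ t in Set.Ioi T, FF A δ 0 t‖ ≤ |b| / δ := by
  rw [← mul_sub, norm_mul, Complex.norm_real, Real.norm_of_nonneg hδ.le, ← integral_sub (FF_int hδ hT) (FF_int hδ hT)]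
  have hI : IntegrableOn (fun t : ℝ => |b| * (t ^ ((2:ℝ) - 1) * Real.exp (-(δ * t)))) (Set.Ioi T) :=
    (IntegrableOn.mono_set (gam_int (by norm_num) hδ) (Set.Ioi_subset_Ioi (by linarith))).const_mul _
  have h1 : ∀ t ∈ Set.Ioi T, ‖FF A δ b t - FF A δ 0 t‖ ≤ |b| * (t ^ ((2:ℝ) - 1) * Real.exp (-(δ * t))) := by
    intro t ht
    have ht0 : 0 < t := by have : T < t := ht; linarith
    have e1 : FF A δ b t - FF A δ 0 t = FF A δ 0 t * (Complex.exp (Complex.I * ((b * t : ℝ) : ℂ)) - 1) := by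
      unfold FF
      rw [mul_sub, mul_one, ← Complex.exp_add]
      congr 2
      push_cast
      ring
    rw [e1, norm_mul, norm_FF]
    have h2 : ‖Complex.exp (Complex.I * ((b * t : ℝ) : ℂ)) - 1‖ ≤ |b * t| := by
      have := Real.norm_exp_I_mul_ofReal_sub_one_le (x := b * t)
      simpa using this
    have e2 : t ^ ((2:ℝ) - 1) = t := by norm_num
    rw [e2]
    rw [abs_mul, abs_of_pos ht0] at h2
    calc Real.exp (-(δ * t)) * _ ≤ Real.exp (-(δ * t)) * (|b| * t) := mul_le_mul_of_nonneg_left h2 (Real.exp_pos _).le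
      _ = _ := by ring
  have h2 := norm_integral_le_of_norm_le hI ((ae_restrict_iff' measurableSet_Ioi).2 (Eventually.of_forall h1))
  rw [integral_const_mul] at h2
  have h3 : ∫ t in Set.Ioi T, t ^ ((2:ℝ) - 1) * Real.exp (-(δ * t)) ≤ (1 / δ) ^ (2:ℝ) * Real.Gamma 2 := by
    rw [← gam_val (by norm_num) hδ]
    refine setIntegral_mono_set (gam_int (by norm_num) hδ) ?_ ?_
    · refine (ae_restrict_iff' measurableSet_Ioi).2 (Eventually.of_forall fun t ht => ?_)
      have ht0 : (0:ℝ) < t := ht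
      exact mul_nonneg (Real.rpow_nonneg ht0.le _) (Real.exp_pos _).le
    · exact Eventually.of_forall (Set.Ioi_subset_Ioi (by linarith : (0:ℝ) ≤ T))
  have hG2 : Real.Gamma 2 = 1 := Real.Gamma_two
  rw [hG2, mul_one, Real.rpow_two] at h3
  calc δ * _ ≤ δ * (|b| * (1 / δ) ^ 2) := by
        refine mul_le_mul_of_nonneg_left (h2.trans ?_) hδ.le
        exact mul_le_mul_of_nonneg_left h3 (abs_nonneg _)
    _ = |b| / δ := by field_simp

/-- the universal factor -/
noncomputable def gg (A T δ : ℝ) : ℂ := (δ : ℂ) * ∫ t in Set.Ioi T, FF A δ 0 t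

lemma JJ_eq {A T δ b : ℝ} : JJ (1 - 1) ((1 - 1) * (1 / 2 + (1 / 2 : ℝ))) A T δ b = ∫ t in Set.Ioi T, FF A δ b t := by
  unfold JJ
  refine setIntegral_congr_fun measurableSet_Ioi fun t _ => ?_
  exact jj_eq

/-- the selected coefficient -/
noncomputable def Cy (a : ℕ → ℂ) (c y : ℝ) : ℂ := ∑' n : ℕ, if 1 ≤ n ∧ c + Real.log n - Real.log y = 0 then
  (starRingEnd ℂ) (a n) * (((n : ℝ) ^ (-1 - (1 / 2 : ℝ)) : ℝ) : ℂ) else 0

/-- difference of the frequencies -/
lemma logz {δ y : ℝ} (hδ : 0 < δ) (hy : 0 < y) :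
    0 ≤ Real.log ‖((δ : ℂ) + y * Complex.I)‖ - Real.log y ∧
      Real.log ‖((δ : ℂ) + y * Complex.I)‖ - Real.log y ≤ δ ^ 2 / y ^ 2 := by
  rw [norm_z, Real.log_sqrt (by positivity)]
  have h1 : Real.log (δ ^ 2 + y ^ 2) = 2 * Real.log y + Real.log (1 + δ ^ 2 / y ^ 2) := by
    have e : δ ^ 2 + y ^ 2 = y ^ 2 * (1 + δ ^ 2 / y ^ 2) := by field_simp; ring
    rw [e, Real.log_mul (by positivity) (by positivity), Real.log_pow]
    norm_num
  rw [h1]
  have h2 : 0 ≤ Real.log (1 + δ ^ 2 / y ^ 2) := Real.log_nonneg (by have : 0 ≤ δ ^ 2 / y ^ 2 := by positivity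
                                                                    linarith)
  have h3 : Real.log (1 + δ ^ 2 / y ^ 2) ≤ δ ^ 2 / y ^ 2 := by
    have := Real.log_le_sub_one_of_pos (show 0 < 1 + δ ^ 2 / y ^ 2 by positivity)
    linarith
  constructor <;> linarith

/-- Tannery -/
lemma tannery {a : ℕ → ℂ} (ha : Ram a) {c A T y : ℝ} (hT : 1 ≤ T) (hy : 0 < y) :
    Tendsto (fun δ : ℝ => (Real.arctan (δ / y) : ℂ) * SJ a 1 (1 / 2) c A T y δ -
      Cy a c y * gg A T (Real.arctan (δ / y))) (𝓝[>] 0) (𝓝 0) := by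
  set w : ℕ → ℂ := fun n => (starRingEnd ℂ) (a n) * (((n : ℝ) ^ (-1 - (1 / 2 : ℝ)) : ℝ) : ℂ) with hw
  have hwn : ∀ n, ‖w n‖ = ‖a n‖ * (n:ℝ) ^ (-1 - (1 / 2 : ℝ)) := by
    intro n
    rw [hw]
    simp only [norm_mul, RCLike.norm_conj, Complex.norm_real, Real.norm_eq_abs]
    rw [abs_of_nonneg (Real.rpow_nonneg (Nat.cast_nonneg n) _)]
  have hws : Summable fun n => ‖w n‖ :=
    (ram_summable ha (show (0:ℝ) < 1 / 2 by norm_num)).congr fun n => (hwn n).symm
  have hw0 : w 0 = 0 := by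
    rw [hw]
    simp only [Nat.cast_zero]
    rw [Real.zero_rpow (by norm_num)]
    simp
  set f : ℝ → ℕ → ℂ := fun δ n => w n * ((Real.arctan (δ / y) : ℂ) * ∫ t in Set.Ioi T, FF A (Real.arctan (δ / y))
      (c + Real.log n - Real.log ‖((δ : ℂ) + y * Complex.I)‖) t) -
      (if 1 ≤ n ∧ c + Real.log n - Real.log y = 0 then w n else 0) * gg A T (Real.arctan (δ / y)) with hf
  have hbound : ∀ δ : ℝ, 0 < δ → ∀ n, ‖f δ n‖ ≤ 2 * ‖w n‖ := by
    intro δ hδ n
    have hδ' := arctan_pos hδ hy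
    have h1 := J_triv (A := A) (b := c + Real.log n - Real.log ‖((δ : ℂ) + y * Complex.I)‖) hδ' hT
    have h2 := J_triv (A := A) (b := 0) hδ' hT
    have h3 : ‖(if 1 ≤ n ∧ c + Real.log n - Real.log y = 0 then w n else 0)‖ ≤ ‖w n‖ := by
      split_ifs
      · exact le_rfl
      · rw [norm_zero]; exact norm_nonneg _
    have h4 : ‖gg A T (Real.arctan (δ / y))‖ ≤ 1 := h2
    have h5 : ‖w n * ((Real.arctan (δ / y) : ℂ) * ∫ t in Set.Ioi T, FF A (Real.arctan (δ / y))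
      (c + Real.log n - Real.log ‖((δ : ℂ) + y * Complex.I)‖) t)‖ ≤ ‖w n‖ * 1 := by
      rw [norm_mul]
      exact mul_le_mul_of_nonneg_left h1 (norm_nonneg _)
    have h6 : ‖(if 1 ≤ n ∧ c + Real.log n - Real.log y = 0 then w n else 0) * gg A T (Real.arctan (δ / y))‖ ≤
        ‖w n‖ * 1 := by
      rw [norm_mul]
      exact mul_le_mul h3 h4 (norm_nonneg _) (norm_nonneg _)
    have h7 : f δ n = w n * ((Real.arctan (δ / y) : ℂ) * ∫ t in Set.Ioi T, FF A (Real.arctan (δ / y))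
      (c + Real.log n - Real.log ‖((δ : ℂ) + y * Complex.I)‖) t) -
      (if 1 ≤ n ∧ c + Real.log n - Real.log y = 0 then w n else 0) * gg A T (Real.arctan (δ / y)) := rfl
    rw [h7]
    refine (norm_sub_le _ _).trans ?_
    linarith
  have hlim : ∀ n, Tendsto (fun δ => f δ n) (𝓝[>] 0) (𝓝 0) := by
    intro n
    rcases Nat.eq_zero_or_pos n with rfl | hn
    · have : (fun δ => f δ 0) = fun _ => 0 := by
        funext δ
        simp only [hf, hw0]
        simp
      rw [this]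
      exact tendsto_const_nhds
    by_cases hb : c + Real.log n - Real.log y = 0
    · -- resonant term
      have hif : (if 1 ≤ n ∧ c + Real.log n - Real.log y = 0 then w n else 0) = w n := if_pos ⟨hn, hb⟩
      have hβ : Tendsto (fun δ : ℝ => ‖w n‖ * (δ * (2 / y))) (𝓝[>] 0) (𝓝 0) := by
        have h1 : Tendsto (fun δ : ℝ => δ) (𝓝[>] 0) (𝓝 0) := nhdsWithin_le_nhds
        simpa using (h1.mul_const (2 / y)).const_mul ‖w n‖
      refine squeeze_zero_norm' ?_ hβ
      filter_upwards [Ioo_mem_nhdsGT hy] with δ hδ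
      have hδ' := arctan_pos hδ.1 hy
      have hl := arctan_lower hδ.1 hy hδ.2.le
      have h1 := J_small (A := A) (b := c + Real.log n - Real.log ‖((δ : ℂ) + y * Complex.I)‖) hδ' hT
      simp only [hf]
      rw [hif, ← mul_sub, norm_mul]
      refine mul_le_mul_of_nonneg_left (h1.trans ?_) (norm_nonneg _)
      obtain ⟨g1, g2⟩ := logz hδ.1 hy
      have h2 : |c + Real.log n - Real.log ‖((δ : ℂ) + y * Complex.I)‖| ≤ δ ^ 2 / y ^ 2 := by
        rw [abs_le]
        constructor <;> linarith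
      rw [div_le_iff₀ hδ']
      calc _ ≤ δ ^ 2 / y ^ 2 := h2
        _ = δ * (2 / y) * (δ / (2 * y)) := by field_simp
        _ ≤ δ * (2 / y) * Real.arctan (δ / y) := by
            refine mul_le_mul_of_nonneg_left hl ?_
            have := hδ.1
            positivity
    · -- non resonant term
      have hif : (if 1 ≤ n ∧ c + Real.log n - Real.log y = 0 then w n else 0) = 0 := if_neg fun h => hb h.2
      set b₀ := c + Real.log n - Real.log y with hb₀
      have hb₀' : 0 < |b₀| := abs_pos.2 hb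
      have hat : Tendsto (fun δ : ℝ => Real.arctan (δ / y)) (𝓝[>] 0) (𝓝 0) := by
        have h1 : Continuous fun δ : ℝ => Real.arctan (δ / y) := by fun_prop
        have h2 := h1.tendsto 0
        simp only [zero_div, Real.arctan_zero] at h2
        exact h2.mono_left nhdsWithin_le_nhds
      have hβ : Tendsto (fun δ : ℝ => ‖w n‖ * ((Real.arctan (δ / y) + |A| * ((Real.arctan (δ / y)) ^ (1 / 2 : ℝ) *
          Real.Gamma (1 / 2))) / (|b₀| / 2))) (𝓝[>] 0) (𝓝 0) := by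
        have h3 : ContinuousAt (fun δ : ℝ => δ ^ (1 / 2 : ℝ)) 0 := Real.continuousAt_rpow_const _ _ (Or.inr (by norm_num))
        have h4 := h3.tendsto
        rw [Real.zero_rpow (by norm_num)] at h4
        have h5 := h4.comp hat
        have h6 := ((hat.add ((h5.mul_const (Real.Gamma (1 / 2))).const_mul |A|)).div_const (|b₀| / 2)).const_mul ‖w n‖
        simpa using h6
      refine squeeze_zero_norm' ?_ hβ
      have hsmall : ∀ᶠ δ : ℝ in 𝓝[>] 0, δ ^ 2 / y ^ 2 < |b₀| / 2 := by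
        have h1 : Tendsto (fun δ : ℝ => δ ^ 2 / y ^ 2) (𝓝[>] 0) (𝓝 0) := by
          have h2 : Continuous fun δ : ℝ => δ ^ 2 / y ^ 2 := by fun_prop
          have h3 := h2.tendsto 0
          simp only [ne_eq, OfNat.ofNat_ne_zero, not_false_eq_true, zero_pow, zero_div] at h3
          exact h3.mono_left nhdsWithin_le_nhds
        exact h1.eventually_lt_const (by positivity)
      filter_upwards [self_mem_nhdsWithin, hsmall] with δ hδ hs
      have hδ0 : (0:ℝ) < δ := hδ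
      have hδ' := arctan_pos hδ0 hy
      obtain ⟨g1, g2⟩ := logz hδ0 hy
      set b := c + Real.log n - Real.log ‖((δ : ℂ) + y * Complex.I)‖ with hbdef
      have hbl : |b₀| / 2 ≤ |b| := by
        have h1 : b₀ - b = Real.log ‖((δ : ℂ) + y * Complex.I)‖ - Real.log y := by rw [hb₀, hbdef]; ring
        have h2 : |b₀| ≤ |b| + |b₀ - b| := by
          have := abs_add_le b (b₀ - b)
          rwa [add_sub_cancel] at this
        have h3 : |b₀ - b| ≤ |b₀| / 2 := by rw [h1, abs_of_nonneg g1]; linarith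
        linarith
      have hb0 : b ≠ 0 := by
        intro h0
        rw [h0, abs_zero] at hbl
        linarith
      simp only [hf]
      rw [hif, zero_mul, sub_zero, norm_mul]
      refine mul_le_mul_of_nonneg_left ((J_bound hδ' hT hb0).trans ?_) (norm_nonneg _)
      have hG := Real.Gamma_pos_of_pos (show (0:ℝ) < 1 / 2 by norm_num)
      gcongr
  have hT' := tendsto_tsum_of_dominated_convergence (𝓕 := 𝓝[>] (0:ℝ)) (f := f) (g := fun _ => (0:ℂ))
    (bound := fun n => 2 * ‖w n‖) (hws.mul_left 2) hlim (by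
      filter_upwards [self_mem_nhdsWithin] with δ hδ
      exact hbound δ hδ)
  rw [tsum_zero] at hT'
  refine hT'.congr' ?_
  filter_upwards [self_mem_nhdsWithin] with δ hδ
  have hδ0 : (0:ℝ) < δ := hδ
  have hδ' := arctan_pos hδ0 hy
  have hs1 : Summable fun n : ℕ => w n * ((Real.arctan (δ / y) : ℂ) * ∫ t in Set.Ioi T, FF A (Real.arctan (δ / y))
      (c + Real.log n - Real.log ‖((δ : ℂ) + y * Complex.I)‖) t) := by
    refine Summable.of_norm_bounded hws fun n => ?_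
    rw [norm_mul]
    exact mul_le_of_le_one_right (norm_nonneg _) (J_triv hδ' hT)
  have hs2 : Summable fun n : ℕ => (if 1 ≤ n ∧ c + Real.log n - Real.log y = 0 then w n else 0) *
      gg A T (Real.arctan (δ / y)) := by
    apply Summable.mul_right
    refine Summable.of_norm_bounded hws fun n => ?_
    split_ifs
    · exact le_rfl
    · rw [norm_zero]; exact norm_nonneg _
  simp only [hf]
  rw [hs1.tsum_sub hs2, tsum_mul_right]
  congr 1
  unfold SJ
  rw [← tsum_mul_left]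
  refine tsum_congr fun n => ?_
  rw [JJ_eq]
  simp only [hw]
  ring

lemma Cy_eq (a : ℕ → ℂ) (c : ℝ) {m : ℕ} (hm : 1 ≤ m) : Cy a c (Real.exp c * m) =
    (starRingEnd ℂ) (a m) * (((m : ℝ) ^ (-1 - (1 / 2 : ℝ)) : ℝ) : ℂ) := by
  unfold Cy
  have hm0 : (0:ℝ) < m := by exact_mod_cast hm
  rw [tsum_eq_single m]
  · rw [if_pos]
    refine ⟨hm, ?_⟩
    rw [Real.log_mul (Real.exp_pos c).ne' hm0.ne', Real.log_exp]
    ring
  · intro n hn
    rw [if_neg]
    rintro ⟨h1, h2⟩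
    apply hn
    have hn0 : (0:ℝ) < n := by exact_mod_cast h1
    rw [Real.log_mul (Real.exp_pos c).ne' hm0.ne', Real.log_exp] at h2
    have h3 : Real.log n = Real.log m := by linarith
    have h4 := Real.log_injOn_pos hn0 hm0 h3
    exact_mod_cast h4

lemma Cy_ne {a : ℕ → ℂ} {c y : ℝ} (hy : 0 < y) (h : Cy a c y ≠ 0) : ∃ q : ℕ, 1 ≤ q ∧ y = Real.exp c * q ∧ a q ≠ 0 := by
  by_contra hcon
  push Not at hcon
  apply h
  unfold Cy
  have : ∀ n : ℕ, (if 1 ≤ n ∧ c + Real.log n - Real.log y = 0 then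
      (starRingEnd ℂ) (a n) * (((n : ℝ) ^ (-1 - (1 / 2 : ℝ)) : ℝ) : ℂ) else 0) = 0 := by
    intro n
    split_ifs with h1
    · have hn0 : (0:ℝ) < n := by exact_mod_cast h1.1
      have h2 : y = Real.exp c * n := by
        have h3 : Real.log y = c + Real.log n := by linarith [h1.2]
        rw [← Real.exp_log hy, h3, Real.exp_add, Real.exp_log hn0]
      rw [hcon n h1.1 h2]
      simp
    · rfl
  simp_rw [this]
  exact tsum_zero

lemma arctan_ratio {y : ℝ} (hy : 0 < y) :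
    Tendsto (fun δ : ℝ => δ / Real.arctan (δ / y)) (𝓝[>] 0) (𝓝 y) := by
  have h1 : HasDerivAt Real.arctan 1 0 := by
    have := Real.hasDerivAt_arctan 0
    simpa using this
  have h2 := hasDerivAt_iff_tendsto_slope_zero.1 h1
  simp only [zero_add, Real.arctan_zero, sub_zero, smul_eq_mul] at h2
  have h3 : Tendsto (fun δ : ℝ => δ / y) (𝓝[>] 0) (𝓝[≠] 0) := by
    rw [tendsto_nhdsWithin_iff]
    constructor
    · have h4 : Continuous fun δ : ℝ => δ / y := by fun_prop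
      have h5 := h4.tendsto 0
      simp only [zero_div] at h5
      exact h5.mono_left nhdsWithin_le_nhds
    · filter_upwards [self_mem_nhdsWithin] with δ hδ
      have : (0:ℝ) < δ := hδ
      exact (div_pos this hy).ne'
  have h4 := (h2.comp h3).inv₀ one_ne_zero
  have h5 := h4.mul_const y
  rw [inv_one, one_mul] at h5
  refine h5.congr' ?_
  filter_upwards [self_mem_nhdsWithin] with δ hδ
  have hδ0 : (0:ℝ) < δ := hδ
  have := arctan_pos hδ0 hy
  simp only [Function.comp]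
  field_simp

/-- the constant in front -/
noncomputable def UU (K : ℂ) (y : ℝ) : ℂ := (y : ℂ) * (K / (2 * Real.pi)) * ((y ^ (1 / 2 : ℝ) : ℝ) : ℂ) *
  Complex.exp (Complex.I * (((1 / 2 : ℝ) * (Real.pi / 2) : ℝ) : ℂ))

lemma UU_ne {K : ℂ} (hK : K ≠ 0) {y : ℝ} (hy : 0 < y) : UU K y ≠ 0 := by
  unfold UU
  have h1 : (y : ℂ) ≠ 0 := by exact_mod_cast hy.ne'
  have h2 : (Real.pi : ℂ) ≠ 0 := by exact_mod_cast Real.pi_pos.ne'
  have h3 : ((y ^ (1 / 2 : ℝ) : ℝ) : ℂ) ≠ 0 := by exact_mod_cast (Real.rpow_pos_of_pos hy _).ne'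
  have h4 := Complex.exp_ne_zero (Complex.I * (((1 / 2 : ℝ) * (Real.pi / 2) : ℝ) : ℂ))
  exact mul_ne_zero (mul_ne_zero (mul_ne_zero h1 (div_ne_zero hK (mul_ne_zero two_ne_zero h2))) h3) h4

lemma gg_bound {A T δ y : ℝ} (hδ : 0 < δ) (hy : 0 < y) (hT : 1 ≤ T) : ‖gg A T (Real.arctan (δ / y))‖ ≤ 1 :=
  J_triv (arctan_pos hδ hy) hT

lemma limit (hLIM : TaskLIM) (hMB : TaskMB) {a : ℕ → ℂ} (ha : Ram a) {G : ℂ → ℂ} (hG : Cont a 1 G) (hPG : PolyGrowth G)
    {K : ℂ} {c A C T : ℝ} (hAs : Asym a G 1 (1 / 2) K c A C T) {y : ℝ} (hy : 0 < y) :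
    Tendsto (fun δ : ℝ => (δ : ℂ) * fz a (δ + y * Complex.I) - UU K y * Cy a c y * gg A T (Real.arctan (δ / y)))
      (𝓝[>] 0) (𝓝 0) := by
  have hT := hAs.2.1
  have h1 := hLIM a ha G hG hPG hMB 1 (1 / 2) K c A C T le_rfl (by norm_num) (by norm_num) (by norm_num) hAs y hy
  have h2 := tannery ha (c := c) (A := A) hT hy
  -- the prefactor
  set u : ℝ → ℂ := fun δ => ((δ / Real.arctan (δ / y) : ℝ) : ℂ) * (K / (2 * Real.pi)) *
    ((‖((δ : ℂ) + y * Complex.I)‖ ^ (1 / 2 : ℝ) : ℝ) : ℂ) *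
      Complex.exp (Complex.I * (((1 / 2 : ℝ) * (Real.pi / 2 - Real.arctan (δ / y)) : ℝ) : ℂ)) with hu
  have hu0 : Tendsto u (𝓝[>] 0) (𝓝 (UU K y)) := by
    have a1 : Tendsto (fun δ : ℝ => ((δ / Real.arctan (δ / y) : ℝ) : ℂ)) (𝓝[>] 0) (𝓝 (y : ℂ)) :=
      (Complex.continuous_ofReal.tendsto y).comp (arctan_ratio hy)
    have a2 : Tendsto (fun δ : ℝ => ((‖((δ : ℂ) + y * Complex.I)‖ ^ (1 / 2 : ℝ) : ℝ) : ℂ)) (𝓝[>] 0)
        (𝓝 ((y ^ (1 / 2 : ℝ) : ℝ) : ℂ)) := by
      have b1 : Continuous fun δ : ℝ => ((‖((δ : ℂ) + y * Complex.I)‖ ^ (1 / 2 : ℝ) : ℝ) : ℂ) := by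
        apply Complex.continuous_ofReal.comp
        apply Continuous.rpow_const (by fun_prop)
        intro x
        right
        norm_num
      have b2 := b1.tendsto 0
      have b3 : ‖((0 : ℝ) : ℂ) + y * Complex.I‖ = y := by
        rw [Complex.ofReal_zero, zero_add, norm_mul, Complex.norm_I, mul_one, Complex.norm_real, Real.norm_of_nonneg hy.le]
      rw [b3] at b2
      exact b2.mono_left nhdsWithin_le_nhds
    have a3 : Tendsto (fun δ : ℝ => Complex.exp (Complex.I * (((1 / 2 : ℝ) * (Real.pi / 2 - Real.arctan (δ / y)) : ℝ) : ℂ)))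
        (𝓝[>] 0) (𝓝 (Complex.exp (Complex.I * (((1 / 2 : ℝ) * (Real.pi / 2) : ℝ) : ℂ)))) := by
      have b1 : Continuous fun δ : ℝ => Complex.exp (Complex.I * (((1 / 2 : ℝ) * (Real.pi / 2 - Real.arctan (δ / y)) : ℝ) : ℂ)) := by
        fun_prop
      have b2 := b1.tendsto 0
      simp only [zero_div, Real.arctan_zero, sub_zero] at b2
      exact b2.mono_left nhdsWithin_le_nhds
    exact ((a1.mul_const _).mul a2).mul a3
  have h3 : Tendsto (fun δ : ℝ => u δ * ((Real.arctan (δ / y) : ℂ) * SJ a 1 (1 / 2) c A T y δ -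
      Cy a c y * gg A T (Real.arctan (δ / y)))) (𝓝[>] 0) (𝓝 0) := by
    simpa using hu0.mul h2
  have h4 : Tendsto (fun δ : ℝ => (u δ - UU K y) * (Cy a c y * gg A T (Real.arctan (δ / y)))) (𝓝[>] 0) (𝓝 0) := by
    have b1 : Tendsto (fun δ : ℝ => ‖u δ - UU K y‖ * ‖Cy a c y‖) (𝓝[>] 0) (𝓝 0) := by
      have b2 : Tendsto (fun δ : ℝ => u δ - UU K y) (𝓝[>] 0) (𝓝 0) := by
        simpa using hu0.sub_const (UU K y)
      simpa using b2.norm.mul_const ‖Cy a c y‖
    refine squeeze_zero_norm' ?_ b1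
    filter_upwards [self_mem_nhdsWithin] with δ hδ
    rw [norm_mul, norm_mul]
    refine mul_le_mul_of_nonneg_left ?_ (norm_nonneg _)
    exact mul_le_of_le_one_right (norm_nonneg _) (gg_bound hδ hy hT)
  have h5 := (h1.add h3).add h4
  simp only [add_zero] at h5
  refine h5.congr' ?_
  filter_upwards [self_mem_nhdsWithin] with δ hδ
  have hδ0 : (0:ℝ) < δ := hδ
  have hδ' := arctan_pos hδ0 hy
  have e1 : ((δ / Real.arctan (δ / y) : ℝ) : ℂ) * (Real.arctan (δ / y) : ℂ) = δ := by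
    rw [← Complex.ofReal_mul]
    congr 1
    field_simp
  simp only [hu]
  linear_combination ((K / (2 * Real.pi)) * ((‖((δ : ℂ) + y * Complex.I)‖ ^ (1 / 2 : ℝ) : ℝ) : ℂ) *
      Complex.exp (Complex.I * (((1 / 2 : ℝ) * (Real.pi / 2 - Real.arctan (δ / y)) : ℝ) : ℂ)) * SJ a 1 (1 / 2) c A T y δ) * e1

end T2

open T2

theorem taskT2 : TaskT2 := by
  intro hLIM hMB a ha1 ha G hG hPG hAs' hG1
  obtain ⟨K, c, A, C, T, hAs⟩ := hAs' (1 / 2) (by norm_num) (by norm_num)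
  have hK := hAs.1
  have hT := hAs.2.1
  have hpi : (0:ℝ) < 2 * Real.pi := by have := Real.pi_pos; positivity
  have habel := Pool.Agent.H5R3.PO.abel hMB ha hG hPG
  have hlim := fun {y : ℝ} (hy : 0 < y) => limit hLIM hMB ha hG hPG hAs hy
  -- at `2 π`
  have h2pi : Tendsto (fun δ : ℝ => UU K (2 * Real.pi) * Cy a c (2 * Real.pi) * gg A T (Real.arctan (δ / (2 * Real.pi))))
      (𝓝[>] 0) (𝓝 (G 1)) := by
    have h := habel.sub (hlim hpi)
    rw [sub_zero] at h
    refine h.congr fun δ => ?_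
    rw [Pool.Agent.H5R3.PO.fz_periodic]
    ring
  have hC2 : Cy a c (2 * Real.pi) ≠ 0 := by
    intro h0
    rw [h0] at h2pi
    simp only [mul_zero, zero_mul] at h2pi
    exact hG1 (tendsto_nhds_unique h2pi tendsto_const_nhds)
  obtain ⟨q, hq1, hq2, hq3⟩ := Cy_ne hpi hC2
  set V : ℂ := UU K (2 * Real.pi) * Cy a c (2 * Real.pi) with hV
  have hV0 : V ≠ 0 := mul_ne_zero (UU_ne hK hpi) hC2
  -- the universal factor converges
  have hgg : Tendsto (gg A T) (𝓝[>] 0) (𝓝 (G 1 / V)) := by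
    have h1 : Tendsto (fun δ : ℝ => gg A T (Real.arctan (δ / (2 * Real.pi)))) (𝓝[>] 0) (𝓝 (G 1 / V)) := by
      have := h2pi.div_const V
      refine this.congr fun δ => ?_
      field_simp
    have h2 : Tendsto (fun x : ℝ => 2 * Real.pi * Real.tan x) (𝓝[>] 0) (𝓝[>] 0) := by
      rw [tendsto_nhdsWithin_iff]
      constructor
      · have h3 : ContinuousAt (fun x : ℝ => 2 * Real.pi * Real.tan x) 0 := by
          apply continuousAt_const.mul
          exact Real.continuousAt_tan.2 (by simp)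
        have h4 := h3.tendsto
        simp only [Real.tan_zero, mul_zero] at h4
        exact h4.mono_left nhdsWithin_le_nhds
      · filter_upwards [Ioo_mem_nhdsGT (show (0:ℝ) < Real.pi / 2 by have := Real.pi_pos; positivity)] with x hx
        exact mul_pos hpi (Real.tan_pos_of_pos_of_lt_pi_div_two hx.1 hx.2)
    refine (h1.comp h2).congr' ?_
    filter_upwards [Ioo_mem_nhdsGT (show (0:ℝ) < Real.pi / 2 by have := Real.pi_pos; positivity)] with x hx
    simp only [Function.comp]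
    rw [mul_div_cancel_left₀ _ hpi.ne', Real.arctan_tan (by linarith [hx.1, Real.pi_pos]) hx.2]
  -- all limits exist
  have hL : ∀ y : ℝ, 0 < y → Tendsto (fun δ : ℝ => (δ : ℂ) * fz a (δ + y * Complex.I)) (𝓝[>] 0)
      (𝓝 (UU K y * Cy a c y * (G 1 / V))) := by
    intro y hy
    have h1 : Tendsto (fun δ : ℝ => gg A T (Real.arctan (δ / y))) (𝓝[>] 0) (𝓝 (G 1 / V)) := by
      refine hgg.comp ?_
      rw [tendsto_nhdsWithin_iff]
      constructor
      · have h1 : Continuous fun δ : ℝ => Real.arctan (δ / y) := by fun_prop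
        have h2 := h1.tendsto 0
        simp only [zero_div, Real.arctan_zero] at h2
        exact h2.mono_left nhdsWithin_le_nhds
      · filter_upwards [self_mem_nhdsWithin] with δ hδ
        exact arctan_pos hδ hy
    have h2 := (hlim hy).add (h1.const_mul (UU K y * Cy a c y))
    rw [zero_add] at h2
    refine h2.congr fun δ => ?_
    ring
  refine ⟨q, hq1, hq3, fun m hm => ?_⟩
  have hm0 : (0:ℝ) < m := by exact_mod_cast hm
  have hy1 : 0 < Real.exp c * m := mul_pos (Real.exp_pos c) hm0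
  have hy2 : 0 < Real.exp c * ((m + q : ℕ) : ℝ) := mul_pos (Real.exp_pos c) (by positivity)
  have e1 : Real.exp c * ((m + q : ℕ) : ℝ) = Real.exp c * m + 2 * Real.pi := by
    rw [hq2]; push_cast; ring
  have hA := hL _ hy1
  have hB := hL _ hy2
  have hA' : Tendsto (fun δ : ℝ => (δ : ℂ) * fz a (δ + (Real.exp c * ((m + q : ℕ) : ℝ) : ℝ) * Complex.I)) (𝓝[>] 0)
      (𝓝 (UU K (Real.exp c * m) * Cy a c (Real.exp c * m) * (G 1 / V))) := by
    refine hA.congr fun δ => ?_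
    rw [e1]
    have h3 := Pool.Agent.H5R3.PO.fz_periodic a ((δ : ℂ) + ((Real.exp c * m : ℝ) : ℂ) * Complex.I)
    rw [← h3]
    congr 2
    push_cast
    ring
  have hEq := tendsto_nhds_unique hA' hB
  rw [Cy_eq a c hm, Cy_eq a c (show 1 ≤ m + q by omega)] at hEq
  have hGV : G 1 / V ≠ 0 := div_ne_zero hG1 hV0
  have hE0 : (0:ℝ) < Real.exp c := Real.exp_pos c
  -- evaluate the constants
  have hval : ∀ n : ℕ, 1 ≤ n → UU K (Real.exp c * n) * ((starRingEnd ℂ) (a n) * (((n : ℝ) ^ (-1 - (1 / 2 : ℝ)) : ℝ) : ℂ)) =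
      UU K (Real.exp c) * (starRingEnd ℂ) (a n) := by
    intro n hn
    have hn0 : (0:ℝ) < n := by exact_mod_cast hn
    unfold UU
    have e2 : (Real.exp c * n) ^ (1 / 2 : ℝ) = (Real.exp c) ^ (1 / 2 : ℝ) * (n : ℝ) ^ (1 / 2 : ℝ) :=
      Real.mul_rpow hE0.le hn0.le
    have e3 : (n : ℝ) * (n : ℝ) ^ (1 / 2 : ℝ) * (n : ℝ) ^ (-1 - (1 / 2 : ℝ)) = 1 := by
      nth_rewrite 1 [← Real.rpow_one (n : ℝ)]
      rw [← Real.rpow_add hn0, ← Real.rpow_add hn0]
      norm_num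
    have e4 : ((n : ℝ) : ℂ) * (((n : ℝ) ^ (1 / 2 : ℝ) : ℝ) : ℂ) * (((n : ℝ) ^ (-1 - (1 / 2 : ℝ)) : ℝ) : ℂ) = 1 := by
      exact_mod_cast e3
    rw [e2]
    rw [Complex.ofReal_mul, Complex.ofReal_mul]
    linear_combination ((Real.exp c : ℂ) * (K / (2 * Real.pi)) * (((Real.exp c) ^ (1 / 2 : ℝ) : ℝ) : ℂ) *
      Complex.exp (Complex.I * (((1 / 2 : ℝ) * (Real.pi / 2) : ℝ) : ℂ)) * (starRingEnd ℂ) (a n)) * e4
  rw [hval m hm, hval (m + q) (by omega)] at hEq
  have h6 := mul_right_cancel₀ hGV hEq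
  have h7 := mul_left_cancel₀ (UU_ne hK hE0) h6
  have h8 := congrArg (starRingEnd ℂ) h7
  rw [Complex.conj_conj, Complex.conj_conj] at h8
  exact h8.symm

end Pool.Agent.H180R3.PO
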